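import Pool.Agent.Q269.IsoFour.Fwd

/-!
# Counting
-/

set_option autoImplicit false

namespace Pool.Agent.Q269.IsoFour

open Finset Filter Topology
open Pool.Agent.W307.RT (Sh Cv HasT)

theorem mem_Cv2 {H : ℕ} {c : ℤ × ℤ} : c ∈ Cv 2 H ↔ Dn c ∧ Hl H c ∧ Mn c ∧ HasT 2 (Sh c.1 c.2) := by
  classical
  unfold Cv Dn Hl Mn
  rw [mem_filter, mem_product, mem_Icc, mem_Icc]
  constructor
  · rintro ⟨-, h1, h2, h3, h4, h5⟩
    exact ⟨h1, ⟨h2, h3⟩, h4, h5⟩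
  · rintro ⟨h1, ⟨h4, h5⟩, h2, h3⟩
    refine ⟨⟨?_, ?_⟩, h1, h4, h5, h2, h3⟩
    · rw [← abs_le]
      have h0 := abs_nonneg c.1
      rcases eq_or_lt_of_le h0 with h6 | h6
      · rw [← h6]; positivity
      · have : 1 ≤ |c.1| := h6
        nlinarith [mul_nonneg h0 h0, mul_self_nonneg (|c.1| - 1)]
    · rw [← abs_le]
      have h0 := abs_nonneg c.2
      rw [← sq_abs] at h5
      rcases eq_or_lt_of_le h0 with h6 | h6
      · rw [← h6]; positivity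
      · have : 1 ≤ |c.2| := h6
        nlinarith

open Classical in
/-- the first family -/
noncomputable def F4 (H : ℕ) : Finset (ℤ × ℤ) :=
  ((Icc (-(H : ℤ)) H) ×ˢ (Icc (-(H : ℤ)) H)).filter (fun c : ℤ × ℤ =>
    Dn c ∧ Hl H c ∧ Mn c ∧ ∃ e s : ℤ, Pr c e s)

theorem mem_F4 {H : ℕ} {c : ℤ × ℤ} : c ∈ F4 H ↔ Dn c ∧ Hl H c ∧ Mn c ∧ ∃ e s : ℤ, Pr c e s := by
  classical
  unfold F4
  rw [mem_filter, mem_product, mem_Icc, mem_Icc]
  constructor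
  · rintro ⟨-, h⟩
    exact h
  · rintro ⟨h1, ⟨h4, h5⟩, h2, h3⟩
    refine ⟨⟨?_, ?_⟩, h1, ⟨h4, h5⟩, h2, h3⟩
    · rw [← abs_le]
      have h0 := abs_nonneg c.1
      rcases eq_or_lt_of_le h0 with h6 | h6
      · rw [← h6]; positivity
      · have : 1 ≤ |c.1| := h6
        nlinarith [mul_nonneg h0 h0, mul_self_nonneg (|c.1| - 1)]
    · rw [← abs_le]
      have h0 := abs_nonneg c.2
      rw [← sq_abs] at h5
      rcases eq_or_lt_of_le h0 with h6 | h6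
      · rw [← h6]; positivity
      · have : 1 ≤ |c.2| := h6
        nlinarith

theorem Hl_mono {H H' : ℕ} (h : H ≤ H') {c : ℤ × ℤ} (hc : Hl H c) : Hl H' c := by
  have : (H : ℤ) ≤ H' := by exact_mod_cast h
  exact ⟨hc.1.trans this, hc.2.trans this⟩

theorem F4_mono {H H' : ℕ} (h : H ≤ H') : F4 H ⊆ F4 H' := by
  intro c hc
  rw [mem_F4] at hc ⊢
  exact ⟨hc.1, Hl_mono h hc.2.1, hc.2.2⟩

theorem Cv_mono {H H' : ℕ} (h : H ≤ H') : Cv 2 H ⊆ Cv 2 H' := by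
  intro c hc
  rw [mem_Cv2] at hc ⊢
  exact ⟨hc.1, Hl_mono h hc.2.1, hc.2.2⟩

/-- sums over a family related to another family with multiplicity at most three -/
theorem sum_rel (S T : Finset (ℤ × ℤ)) (R : ℤ × ℤ → (ℤ × ℤ) × ℤ → Prop) (f g : ℤ × ℤ → ℝ)
    (hg : ∀ c, 0 ≤ g c)
    (hR : ∀ c ∈ S, ∃ d : (ℤ × ℤ) × ℤ, R c d ∧ d.1 ∈ T ∧ d.2 ^ 3 + d.1.1 * d.2 + d.1.2 = 0 ∧
      f c ≤ g d.1)
    (hinj : ∀ c1 ∈ S, ∀ c2 ∈ S, ∀ d, R c1 d → R c2 d → c1 = c2) :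
    ∑ c ∈ S, f c ≤ 3 * ∑ c ∈ T, g c := by
  classical
  choose! D hD using hR
  let ψ : ℤ × ℤ → (ℤ × ℤ) × Fin 3 := fun c => ((D c).1, idx (D c).1 (D c).2)
  have hψ : Set.InjOn ψ S := by
    intro c1 h1 c2 h2 h
    obtain ⟨r1, -, q1, -⟩ := hD c1 h1
    obtain ⟨r2, -, q2, -⟩ := hD c2 h2
    simp only [ψ, Prod.mk.injEq] at h
    obtain ⟨ha, hb⟩ := h
    have hc : (D c1).2 = (D c2).2 := by
      rw [ha] at q1 hb
      exact idx_inj (D c2).1 q1 q2 hb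
    have hd : D c1 = D c2 := Prod.ext ha hc
    rw [hd] at r1
    exact hinj c1 h1 c2 h2 _ r1 r2
  calc ∑ c ∈ S, f c ≤ ∑ c ∈ S, g (ψ c).1 := sum_le_sum fun c hc => (hD c hc).2.2.2
    _ = ∑ d ∈ S.image ψ, g d.1 := by
        rw [sum_image]
        exact hψ
    _ ≤ ∑ d ∈ T ×ˢ (univ : Finset (Fin 3)), g d.1 := by
        apply sum_le_sum_of_subset_of_nonneg
        · intro d hd
          obtain ⟨c, hc, rfl⟩ := mem_image.1 hd
          exact mem_product.2 ⟨(hD c hc).2.1, mem_univ _⟩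
        · intro d _ _
          exact hg _
    _ = 3 * ∑ c ∈ T, g c := by
        rw [sum_product]
        simp only [sum_const, card_univ, Fintype.card_fin, nsmul_eq_mul]
        rw [mul_sum]
        rfl

theorem fwd_sum (f : ℕ → ℝ) (hf : Monotone f) (h0 : ∀ n, 0 ≤ f n) (H : ℕ) :
    ∑ c ∈ F4 H, f (rk c) ≤ 3 * ∑ c ∈ Cv 2 (2000000 * H), f (rk c) := by
  apply sum_rel (F4 H) _ FR (fun c => f (rk c)) (fun c => f (rk c)) (fun c => h0 _)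
  · intro c hc
    obtain ⟨h1, h2, -, e, s, hP⟩ := mem_F4.1 hc
    obtain ⟨d, g1, g2, g3, g4, g5, g6, g7⟩ := exists_fwd h1 hP
    exact ⟨d, g1, mem_Cv2.2 ⟨g2, g4 H h2, g3, g5⟩, g6, hf g7⟩
  · intro c1 h1 c2 h2 d r1 r2
    exact FR_inj r1 r2 (mem_F4.1 h1).2.2.1 (mem_F4.1 h2).2.2.1

theorem rev_sum (f : ℕ → ℝ) (hf : Antitone f) (h0 : ∀ n, 0 ≤ f n) (H : ℕ) :
    ∑ c ∈ Cv 2 H, f (rk c) ≤ 3 * ∑ c ∈ F4 (5000 * H), f (rk c) := by
  apply sum_rel (Cv 2 H) _ RR (fun c => f (rk c)) (fun c => f (rk c)) (fun c => h0 _)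
  · intro c hc
    obtain ⟨h1, h2, -, h3⟩ := mem_Cv2.1 hc
    obtain ⟨d, g1, g2, g3, g4, g5, g6, g7⟩ := exists_rev h1 h3 h2
    exact ⟨d, g1, mem_F4.2 ⟨g2, g4, g3, g5⟩, g6, hf g7⟩
  · intro c1 h1 c2 h2 d r1 r2
    exact RR_inj r1 r2 (mem_Cv2.1 h1).2.2.1 (mem_Cv2.1 h2).2.2.1

theorem card_fwd (H : ℕ) : ((F4 H).card : ℝ) ≤ 3 * (Cv 2 (2000000 * H)).card := by
  have := fwd_sum (fun _ => 1) monotone_const (fun _ => zero_le_one) H
  simpa using this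

theorem card_rev (H : ℕ) : ((Cv 2 H).card : ℝ) ≤ 3 * (F4 (5000 * H)).card := by
  have := rev_sum (fun _ => 1) antitone_const (fun _ => zero_le_one) H
  simpa using this

/-- upper bound for the number of the curves with full 2-torsion -/
theorem card_Cv_le {T : ℕ} (hT : 1 ≤ T) : ((Cv 2 (T ^ 6)).card : ℝ) ≤ 9 * (T : ℝ) ^ 2 := by
  classical
  have hpar : ∀ c ∈ Cv 2 (T ^ 6), ∃ d : ℤ × ℤ, d.1 ∈ Icc (-(T : ℤ)) T ∧ d.2 ∈ Icc (-(T : ℤ)) T ∧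
      c.1 = -(d.1 ^ 2 + d.1 * d.2 + d.2 ^ 2) ∧ c.2 = d.1 * d.2 * (d.1 + d.2) := by
    intro c hc
    obtain ⟨hD, ⟨h1, -⟩, -, hF⟩ := mem_Cv2.1 hc
    obtain ⟨r1, r2, r3, hs, -, -, -, hA, hB⟩ := roots_of_full hD hF
    have h3 : r3 = -r1 - r2 := by linarith
    have bound : ∀ r r' : ℤ, c.1 = -(r ^ 2 + r * r' + r' ^ 2) → r ∈ Icc (-(T : ℤ)) T := by
      intro r r' hr
      rw [mem_Icc, ← abs_le]
      have e1 : 3 * r ^ 2 ≤ 4 * |c.1| := by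
        have : |c.1| = r ^ 2 + r * r' + r' ^ 2 := by
          rw [hr, abs_neg, abs_of_nonneg]
          nlinarith [sq_nonneg (r + r'), sq_nonneg r, sq_nonneg r']
        rw [this]
        nlinarith [sq_nonneg (r + 2 * r')]
      have e2 : (3 * r ^ 2) ^ 3 ≤ (4 * |c.1|) ^ 3 := pow_le_pow_left₀ (by positivity) e1 3
      have e3 : (4 * |c.1|) ^ 3 = 16 * (4 * |c.1| ^ 3) := by ring
      have e4 : (3 * r ^ 2) ^ 3 = 27 * |r| ^ 6 := by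
        have : |r| ^ 6 = (|r| ^ 2) ^ 3 := by ring
        rw [this, sq_abs]; ring
      have e5 : |r| ^ 6 ≤ (T : ℤ) ^ 6 := by
        push_cast at h1
        have : 0 ≤ |r| ^ 6 := by positivity
        linarith
      exact le_of_pow_le_pow_left₀ (by norm_num) (by positivity) e5
    have a1 : c.1 = -(r1 ^ 2 + r1 * r2 + r2 ^ 2) := by rw [hA, h3]; ring
    have a2 : c.1 = -(r2 ^ 2 + r2 * r1 + r1 ^ 2) := by rw [hA, h3]; ring
    exact ⟨(r1, r2), bound r1 r2 a1, bound r2 r1 a2, a1, by rw [hB, h3]; ring⟩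
  choose! D hD using hpar
  have h1 : (Cv 2 (T ^ 6)).card ≤ ((Icc (-(T : ℤ)) T) ×ˢ (Icc (-(T : ℤ)) T)).card := by
    apply card_le_card_of_injOn D
    · intro c hc
      have := hD c hc
      rw [mem_coe, mem_product]
      exact ⟨this.1, this.2.1⟩
    · intro c1 h1 c2 h2 h
      have g1 := hD c1 h1
      have g2 := hD c2 h2
      apply Prod.ext
      · rw [g1.2.2.1, g2.2.2.1, h]
      · rw [g1.2.2.2, g2.2.2.2, h]
  rw [card_product, Int.card_Icc] at h1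
  have h2 : ((T : ℤ) + 1 - -(T : ℤ)).toNat = 2 * T + 1 := by omega
  rw [h2] at h1
  have h3 : (2 * T + 1) * (2 * T + 1) ≤ 9 * T ^ 2 := by nlinarith
  exact_mod_cast h1.trans h3

/-- the scale of `H` -/
theorem exists_scale (m : ℕ) (hm : 1 ≤ m) (H : ℕ) : ∃ T : ℕ, m * T ^ 6 ≤ H ∧ H < m * (T + 1) ^ 6 := by
  classical
  let T := Nat.findGreatest (fun T => m * T ^ 6 ≤ H) H
  refine ⟨T, ?_, ?_⟩
  · have := Nat.findGreatest_spec (P := fun T => m * T ^ 6 ≤ H) (m := 0) (n := H) (Nat.zero_le _)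
      (by simp)
    exact this
  · by_contra hcon
    have hcon : m * (T + 1) ^ 6 ≤ H := not_lt.1 hcon
    have hle : T + 1 ≤ H := by
      calc T + 1 ≤ (T + 1) ^ 6 := Nat.le_self_pow (by norm_num) _
        _ ≤ m * (T + 1) ^ 6 := Nat.le_mul_of_pos_left _ hm
        _ ≤ H := hcon
    have := Nat.le_findGreatest (P := fun T => m * T ^ 6 ≤ H) hle hcon
    change T + 1 ≤ T at this
    omega

/-- both families have about `T²` members of height at most `H`, `H` about `T⁶` -/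
theorem sizes : ∃ (a : ℝ) (b : ℝ) (m : ℕ) (H0 : ℕ), 0 < a ∧ 0 < b ∧ 1 ≤ m ∧ ∀ H : ℕ, H0 ≤ H →
    ∃ T : ℕ, 1 ≤ T ∧ m * T ^ 6 ≤ H ∧ H < m * (2 * T) ^ 6 ∧
      a * (T : ℝ) ^ 2 ≤ (Cv 2 (H / 5000)).card ∧
      ((Cv 2 (2000000 * H)).card : ℝ) ≤ b * (T : ℝ) ^ 2 := by
  obtain ⟨c, C0, T0, hc, hlow⟩ := Pool.Agent.W672.FK.lowf
  obtain ⟨C, hC⟩ : ∃ C, C = C0 + 1 := ⟨_, rfl⟩
  obtain ⟨m, hm⟩ : ∃ m, m = 5000 * C := ⟨_, rfl⟩
  obtain ⟨L, hL⟩ : ∃ L, L = 2 * (2000000 * m) := ⟨_, rfl⟩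
  have hm1 : 1 ≤ m := by omega
  refine ⟨c, 9 * (L : ℝ) ^ 2, m, m * (T0 + 1) ^ 6, by positivity, ?_, hm1, fun H hH => ?_⟩
  · have : (0 : ℝ) < L := by
      have : 0 < L := by omega
      exact_mod_cast this
    positivity
  obtain ⟨T, h1, h2⟩ := exists_scale m hm1 H
  have hT : T0 + 1 ≤ T := by
    by_contra hcon
    have : T + 1 ≤ T0 + 1 := by omega
    have h3 : m * (T + 1) ^ 6 ≤ m * (T0 + 1) ^ 6 :=
      Nat.mul_le_mul_left _ (Nat.pow_le_pow_left this 6)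
    omega
  have hT1 : 1 ≤ T := by omega
  have h2' : H < m * (2 * T) ^ 6 :=
    lt_of_lt_of_le h2 (Nat.mul_le_mul_left _ (Nat.pow_le_pow_left (by omega) 6))
  refine ⟨T, hT1, h1, h2', ?_, ?_⟩
  · refine hlow T (H / 5000) (by omega) ?_
    rw [Nat.le_div_iff_mul_le (by norm_num)]
    calc C0 * T ^ 6 * 5000 ≤ C * T ^ 6 * 5000 := by gcongr; omega
      _ = m * T ^ 6 := by rw [hm]; ring
      _ ≤ H := h1
  · have g1 : 2000000 * H ≤ (L * T) ^ 6 := by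
      calc 2000000 * H ≤ 2000000 * (m * (2 * T) ^ 6) := Nat.mul_le_mul_left _ h2'.le
        _ = (2000000 * m) * 2 ^ 6 * T ^ 6 := by ring
        _ ≤ (2000000 * m) ^ 6 * 2 ^ 6 * T ^ 6 := by
            gcongr
            exact Nat.le_self_pow (by norm_num) _
        _ = (L * T) ^ 6 := by rw [hL]; ring
    have g2 : ((Cv 2 (2000000 * H)).card : ℝ) ≤ (Cv 2 ((L * T) ^ 6)).card := by
      exact_mod_cast card_le_card (Cv_mono g1)
    have g3 := card_Cv_le (T := L * T) (Nat.one_le_iff_ne_zero.2 (by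
      have : 0 < L := by omega
      positivity))
    push_cast at g3
    calc ((Cv 2 (2000000 * H)).card : ℝ) ≤ 9 * ((L : ℝ) * T) ^ 2 := g2.trans g3
      _ = 9 * (L : ℝ) ^ 2 * (T : ℝ) ^ 2 := by ring

theorem F4_ge (H : ℕ) : ((Cv 2 (H / 5000)).card : ℝ) ≤ 3 * (F4 H).card := by
  have g2 := card_rev (H / 5000)
  have g4 : ((F4 (5000 * (H / 5000))).card : ℝ) ≤ (F4 H).card := by
    exact_mod_cast card_le_card (F4_mono (Nat.mul_div_le H 5000))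
  linarith

theorem compare : ∃ D : ℝ, 0 < D ∧ ∃ H0 : ℕ, ∀ H : ℕ, H0 ≤ H → 0 < (F4 H).card ∧
    ((Cv 2 (2000000 * H)).card : ℝ) ≤ D * (F4 H).card := by
  obtain ⟨a, b, m, H0, ha, hb, -, h⟩ := sizes
  refine ⟨3 * b / a, by positivity, H0, fun H hH => ?_⟩
  obtain ⟨T, hT, -, -, h1, h2⟩ := h H hH
  have hT' : (0 : ℝ) < T := by exact_mod_cast hT
  have h3 : a / 3 * (T : ℝ) ^ 2 ≤ (F4 H).card := by
    have := F4_ge H
    linarith
  constructor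
  · have : (0 : ℝ) < (F4 H).card := lt_of_lt_of_le (by positivity) h3
    exact_mod_cast this
  · calc ((Cv 2 (2000000 * H)).card : ℝ) ≤ b * (T : ℝ) ^ 2 := h2
      _ = 3 * b / a * (a / 3 * (T : ℝ) ^ 2) := by field_simp
      _ ≤ 3 * b / a * (F4 H).card := by gcongr

/-- the proportion of the curves with full 2-torsion and small height -/
theorem compare' : ∃ D : ℝ, 0 < D ∧ ∃ H0 : ℕ, ∀ H : ℕ, H0 ≤ H →
    ((F4 H).card : ℝ) ≤ D * (Cv 2 (H / 5000)).card := by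
  obtain ⟨a, b, m, H0, ha, hb, -, h⟩ := sizes
  refine ⟨3 * b / a, by positivity, H0, fun H hH => ?_⟩
  obtain ⟨T, hT, -, -, h1, h2⟩ := h H hH
  have h5 := card_fwd H
  calc ((F4 H).card : ℝ) ≤ 3 * (b * (T : ℝ) ^ 2) := by linarith
    _ = 3 * b / a * (a * (T : ℝ) ^ 2) := by field_simp
    _ ≤ 3 * b / a * (Cv 2 (H / 5000)).card := by gcongr

/-- the number of the curves of the first family -/
theorem count_F4 : ∃ c C : ℝ, 0 < c ∧ 0 < C ∧ ∀ᶠ H : ℕ in atTop,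
    c * (H : ℝ) ^ ((1 : ℝ) / 3) ≤ (F4 H).card ∧ ((F4 H).card : ℝ) ≤ C * (H : ℝ) ^ ((1 : ℝ) / 3) := by
  obtain ⟨a, b, m, H0, ha, hb, hm, h⟩ := sizes
  have hmR : (0 : ℝ) < m := by exact_mod_cast hm
  have hm3 : (0 : ℝ) < (m : ℝ) ^ ((1 : ℝ) / 3) := Real.rpow_pos_of_pos hmR _
  have key : ∀ T : ℕ, ((m : ℝ) * (T : ℝ) ^ 6) ^ ((1 : ℝ) / 3) =
      (m : ℝ) ^ ((1 : ℝ) / 3) * (T : ℝ) ^ 2 := by
    intro T
    rw [Real.mul_rpow hmR.le (by positivity), ← Real.rpow_natCast (T : ℝ) 6, ← Real.rpow_mul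
      (by positivity), ← Real.rpow_natCast (T : ℝ) 2]
    norm_num
  refine ⟨a / 3 / (4 * (m : ℝ) ^ ((1 : ℝ) / 3)), 3 * b / (m : ℝ) ^ ((1 : ℝ) / 3), by positivity,
    by positivity, ?_⟩
  filter_upwards [eventually_ge_atTop H0] with H hH
  obtain ⟨T, hT, h1, h2, h3', h4⟩ := h H hH
  have h3 : a / 3 * (T : ℝ) ^ 2 ≤ (F4 H).card := by
    have := F4_ge H
    linarith
  have h1R : (m : ℝ) * (T : ℝ) ^ 6 ≤ H := by exact_mod_cast h1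
  have h2R : (H : ℝ) ≤ (m : ℝ) * (((2 * T : ℕ) : ℝ)) ^ 6 := by exact_mod_cast h2.le
  have k1 : (m : ℝ) ^ ((1 : ℝ) / 3) * (T : ℝ) ^ 2 ≤ (H : ℝ) ^ ((1 : ℝ) / 3) := by
    rw [← key T]
    exact Real.rpow_le_rpow (by positivity) h1R (by norm_num)
  have k2 : (H : ℝ) ^ ((1 : ℝ) / 3) ≤ (m : ℝ) ^ ((1 : ℝ) / 3) * (4 * (T : ℝ) ^ 2) := by
    have := Real.rpow_le_rpow (by positivity) h2R (by norm_num : (0 : ℝ) ≤ 1 / 3)
    rw [key (2 * T)] at this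
    push_cast at this
    calc (H : ℝ) ^ ((1 : ℝ) / 3) ≤ (m : ℝ) ^ ((1 : ℝ) / 3) * (2 * (T : ℝ)) ^ 2 := this
      _ = _ := by ring
  constructor
  · calc a / 3 / (4 * (m : ℝ) ^ ((1 : ℝ) / 3)) * (H : ℝ) ^ ((1 : ℝ) / 3)
        ≤ a / 3 / (4 * (m : ℝ) ^ ((1 : ℝ) / 3)) * ((m : ℝ) ^ ((1 : ℝ) / 3) * (4 * (T : ℝ) ^ 2)) := by
          gcongr
      _ = a / 3 * (T : ℝ) ^ 2 := by field_simp
      _ ≤ _ := h3
  · have h5 := card_fwd H
    calc ((F4 H).card : ℝ) ≤ 3 * (b * (T : ℝ) ^ 2) := by linarith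
      _ = 3 * b / (m : ℝ) ^ ((1 : ℝ) / 3) * ((m : ℝ) ^ ((1 : ℝ) / 3) * (T : ℝ) ^ 2) := by
          field_simp
      _ ≤ 3 * b / (m : ℝ) ^ ((1 : ℝ) / 3) * (H : ℝ) ^ ((1 : ℝ) / 3) := by gcongr

end Pool.Agent.Q269.IsoFour
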