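import Pool.Agent.Q269.IsoFour.Count
import Pool.Agent.W307.FK.Main
import Pool.Agent.TH344.DT.Main
import Pool.Agent.Y667.RZ.Fin2

/-!
# The theorems on the ranks
-/

set_option autoImplicit false

namespace Pool.Agent.Q269.IsoFour

open Finset Filter Topology
open Pool.Agent.W307.RT (Sh Cv HasT)
open Pool.Agent.W307.SE (SelR)
open Pool.Agent.TH344.DT (ud)

theorem rk_le {H : ℕ} {c : ℤ × ℤ} (hc : c ∈ Cv 2 H) : 2 ^ rk c ≤ (SelR c.1 c.2).ncard :=
  Pool.Agent.TH344.DT.rank_le2 hc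

/-- from large heights to all heights -/
theorem all_heights {f : ℤ × ℤ → ℝ} (hf : ∀ c, 0 ≤ f c) (P : ℤ × ℤ → Prop) [DecidablePred P]
    {C : ℝ} {H0 : ℕ} (h : ∀ H : ℕ, H0 ≤ H → ∑ c ∈ (F4 H).filter P, f c ≤ C * (F4 H).card) :
    ∃ C' : ℝ, ∀ H : ℕ, ∑ c ∈ (F4 H).filter P, f c ≤ C' * (F4 H).card := by
  refine ⟨max C (∑ c ∈ (F4 H0).filter P, f c), fun H => ?_⟩
  rcases le_total H0 H with hH | hH
  · exact (h H hH).trans (mul_le_mul_of_nonneg_right (le_max_left _ _) (Nat.cast_nonneg _))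
  · rcases Nat.eq_zero_or_pos (F4 H).card with h0 | h0
    · rw [card_eq_zero] at h0
      rw [h0]
      simp
    · have h1 : (1 : ℝ) ≤ (F4 H).card := by exact_mod_cast h0
      have h2 : ∑ c ∈ (F4 H).filter P, f c ≤ ∑ c ∈ (F4 H0).filter P, f c :=
        sum_le_sum_of_subset_of_nonneg (filter_subset_filter _ (F4_mono hH)) (fun c _ _ => hf c)
      have h3 : 0 ≤ ∑ c ∈ (F4 H0).filter P, f c := sum_nonneg fun c _ => hf c
      calc ∑ c ∈ (F4 H).filter P, f c ≤ (∑ c ∈ (F4 H0).filter P, f c) * 1 := by linarith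
        _ ≤ max C (∑ c ∈ (F4 H0).filter P, f c) * (F4 H).card :=
          mul_le_mul (le_max_right _ _) h1 zero_le_one (h3.trans (le_max_right _ _))

/-- the average of `4 ^ rank` -/
theorem average : ∃ C : ℝ, ∀ H : ℕ, ∑ c ∈ F4 H, (4 : ℝ) ^ rk c ≤ C * (F4 H).card := by
  obtain ⟨C, hC⟩ := Pool.Agent.W307.FK.finh
  obtain ⟨D, hD, H0, h⟩ := compare
  obtain ⟨C', hC'⟩ := all_heights (f := fun c => (4 : ℝ) ^ rk c) (fun c => by positivity)
    (fun _ => True) (C := 3 * (max C 0 * D)) (H0 := H0) (fun H hH => by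
      rw [filter_true]
      refine (fwd_sum (fun n => (4 : ℝ) ^ n) (fun a b hab => pow_le_pow_right₀ (by norm_num) hab)
        (fun n => by positivity) H).trans ?_
      have h1 : ∑ c ∈ Cv 2 (2000000 * H), (4 : ℝ) ^ rk c ≤
          ∑ c ∈ Cv 2 (2000000 * H), ((SelR c.1 c.2).ncard : ℝ) ^ 2 := by
        apply sum_le_sum
        intro c hc
        have h2 : ((2 : ℝ) ^ rk c) ≤ (SelR c.1 c.2).ncard := by exact_mod_cast rk_le hc
        calc (4 : ℝ) ^ rk c = (2 ^ rk c) ^ 2 := by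
              rw [← pow_mul, mul_comm, pow_mul]; norm_num
          _ ≤ _ := pow_le_pow_left₀ (by positivity) h2 2
      have h3 := (hC (2000000 * H)).2
      have h4 := (h H hH).2
      have h5 : C * ((Cv 2 (2000000 * H)).card : ℝ) ≤ max C 0 * (D * (F4 H).card) :=
        mul_le_mul (le_max_left _ _) h4 (Nat.cast_nonneg _) (le_max_right _ _)
      calc 3 * ∑ c ∈ Cv 2 (2000000 * H), (4 : ℝ) ^ rk c ≤ 3 * (max C 0 * (D * (F4 H).card)) := by
            linarith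
        _ = _ := by ring)
  refine ⟨C', fun H => ?_⟩
  have := hC' H
  rwa [filter_true] at this

/-- the comparison of the proportions -/
theorem ratio_le : ∃ D : ℝ, 0 < D ∧ ∃ H0 : ℕ, ∀ H : ℕ, H0 ≤ H → ∀ r : ℕ,
    (((F4 H : Set (ℤ × ℤ)) ∩ {c | r ≤ rk c}).ncard : ℝ) / ((F4 H).card : ℝ) ≤
      D * ((((Cv 2 (2000000 * H) : Finset (ℤ × ℤ)) : Set (ℤ × ℤ)) ∩ {c | r ≤ rk c}).ncard /
        ((Cv 2 (2000000 * H)).card : ℝ)) := by
  classical
  obtain ⟨D, hD, H0, h⟩ := compare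
  refine ⟨3 * D, by positivity, H0, fun H hH r => ?_⟩
  obtain ⟨h1, h2⟩ := h H hH
  have e1 : ∀ S : Finset (ℤ × ℤ), (((S : Set (ℤ × ℤ)) ∩ {c | r ≤ rk c}).ncard : ℝ) =
      ∑ c ∈ S, (if r ≤ rk c then (1 : ℝ) else 0) := by
    intro S
    have : ((S : Set (ℤ × ℤ)) ∩ {c | r ≤ rk c}) = ((S.filter (fun c => r ≤ rk c) : Finset _) :
        Set (ℤ × ℤ)) := by
      ext c; simp
    rw [this, Set.ncard_coe_finset, sum_ite, sum_const, sum_const_zero, add_zero, nsmul_eq_mul,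
      mul_one]
  have h3 := fwd_sum (fun n => if r ≤ n then (1 : ℝ) else 0) (fun a b hab => by
    by_cases ha : r ≤ a
    · have hb : r ≤ b := ha.trans hab
      simp [ha, hb]
    · simp only [ha, if_false]
      split_ifs <;> norm_num) (fun n => by split_ifs <;> norm_num) H
  rw [e1, e1]
  have h4 : (0 : ℝ) < (F4 H).card := by exact_mod_cast h1
  have h5 : (0 : ℝ) < (Cv 2 (2000000 * H)).card := by
    have h6 := card_fwd H
    linarith
  rw [div_le_iff₀ h4]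
  have h7 : 0 ≤ ∑ c ∈ Cv 2 (2000000 * H), (if r ≤ rk c then (1 : ℝ) else 0) :=
    sum_nonneg fun c _ => by split_ifs <;> norm_num
  calc ∑ c ∈ F4 H, (if r ≤ rk c then (1 : ℝ) else 0)
      ≤ 3 * ∑ c ∈ Cv 2 (2000000 * H), (if r ≤ rk c then (1 : ℝ) else 0) := h3
    _ = 3 * ((∑ c ∈ Cv 2 (2000000 * H), (if r ≤ rk c then (1 : ℝ) else 0)) /
          (Cv 2 (2000000 * H)).card) * (Cv 2 (2000000 * H)).card := by field_simp
    _ ≤ 3 * ((∑ c ∈ Cv 2 (2000000 * H), (if r ≤ rk c then (1 : ℝ) else 0)) /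
          (Cv 2 (2000000 * H)).card) * (D * (F4 H).card) := by gcongr
    _ = _ := by ring

/-- the upper density in the first family -/
noncomputable def uF (S : Set (ℤ × ℤ)) : ℝ :=
  limsup (fun H : ℕ => (((F4 H : Set (ℤ × ℤ)) ∩ S).ncard : ℝ) / ((F4 H).card : ℝ)) atTop

theorem ratF_nonneg (S : Set (ℤ × ℤ)) (H : ℕ) :
    0 ≤ (((F4 H : Set (ℤ × ℤ)) ∩ S).ncard : ℝ) / ((F4 H).card : ℝ) := by positivity

theorem ratF_le_one (S : Set (ℤ × ℤ)) (H : ℕ) :
    (((F4 H : Set (ℤ × ℤ)) ∩ S).ncard : ℝ) / ((F4 H).card : ℝ) ≤ 1 := by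
  apply div_le_one_of_le₀ _ (Nat.cast_nonneg _)
  have h := Set.ncard_le_ncard (Set.inter_subset_left (s := (F4 H : Set (ℤ × ℤ))) (t := S))
    (finite_toSet _)
  rw [Set.ncard_coe_finset] at h
  exact_mod_cast h

theorem uF_nonneg (S : Set (ℤ × ℤ)) : 0 ≤ uF S := by
  unfold uF
  refine le_limsup_of_frequently_le (Frequently.of_forall fun H => ratF_nonneg S H)
    ⟨1, by rw [eventually_map]; exact Eventually.of_forall fun H => ratF_le_one S H⟩

theorem uF_le : ∃ D : ℝ, 0 < D ∧ ∀ r : ℕ, uF {c | r ≤ rk c} ≤ D * ud {c | r ≤ rk c} := by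
  obtain ⟨D, hD, H0, h⟩ := ratio_le
  refine ⟨D, hD, fun r => ?_⟩
  have key : ∀ b : ℝ, ud {c | r ≤ rk c} < b → uF {c | r ≤ rk c} ≤ D * b := by
    intro b hb
    have h1 := eventually_lt_of_limsup_lt hb (by
      refine ⟨1, ?_⟩
      rw [eventually_map]
      exact Eventually.of_forall fun H => Pool.Agent.TH344.DT.ratio_le_one _ H)
    rw [eventually_atTop] at h1
    obtain ⟨H1, h1⟩ := h1
    unfold uF
    apply limsup_le_of_le
    · exact ⟨0, fun a ha => by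
        rw [eventually_map] at ha
        obtain ⟨H, hH⟩ := ha.exists
        exact (ratF_nonneg _ H).trans hH⟩
    · filter_upwards [eventually_ge_atTop (max H0 H1)] with H hH
      refine (h H ((le_max_left _ _).trans hH) r).trans ?_
      have h2 := h1 (2000000 * H) (by
        have := (le_max_right H0 H1).trans hH
        omega)
      exact mul_le_mul_of_nonneg_left h2.le hD.le
  apply le_of_forall_pos_le_add
  intro ε hε
  have := key (ud {c | r ≤ rk c} + ε / D) (by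
    have : 0 < ε / D := by positivity
    linarith)
  calc uF {c | r ≤ rk c} ≤ D * (ud {c | r ≤ rk c} + ε / D) := this
    _ = D * ud {c | r ≤ rk c} + ε := by field_simp

/-- the tails -/
theorem tails (A : ℝ) : Tendsto (fun r : ℕ => A ^ r * uF {c | r ≤ rk c}) atTop (𝓝 0) := by
  obtain ⟨D, hD, h⟩ := uF_le
  have h1 := Pool.Agent.TH344.DT.tail_set Pool.Agent.TH344.DT.exc 1
    (S := fun r => {c | r ≤ rk c}) (fun r H c hc hr => by
      rw [pow_one]
      exact (Nat.pow_le_pow_right (by norm_num) hr).trans (rk_le hc)) |A|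
  have h2 := h1.const_mul D
  rw [mul_zero] at h2
  apply squeeze_zero_norm (fun r => ?_) h2
  rw [Real.norm_eq_abs, abs_mul, abs_pow, abs_of_nonneg (uF_nonneg _)]
  have h3 : 0 ≤ |A| ^ r := by positivity
  calc |A| ^ r * uF {c | r ≤ rk c} ≤ |A| ^ r * (D * ud {c | r ≤ rk c}) :=
        mul_le_mul_of_nonneg_left (h r) h3
    _ = D * (|A| ^ r * ud {c | r ≤ rk c}) := by ring

/-- a positive proportion of rank zero -/
theorem rank_zero : ∃ δ : ℝ, 0 < δ ∧ ∀ᶠ H : ℕ in atTop,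
    δ ≤ (((F4 H : Set (ℤ × ℤ)) ∩ {c | rk c = 0}).ncard : ℝ) / ((F4 H).card : ℝ) := by
  classical
  obtain ⟨c0, hc0, H1, h1⟩ := Pool.Agent.Y667.RZ.curvesW
  obtain ⟨D, hD, H2, h2⟩ := compare'
  obtain ⟨D', -, H3, h3⟩ := compare
  refine ⟨c0 / (3 * D), by positivity, ?_⟩
  filter_upwards [eventually_ge_atTop (max (5000 * H1) (max H2 H3))] with H hH
  have hH1 : H1 ≤ H / 5000 := by
    rw [Nat.le_div_iff_mul_le (by norm_num)]
    have := (le_max_left (5000 * H1) (max H2 H3)).trans hH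
    omega
  have hH2 : H2 ≤ H := ((le_max_left H2 H3).trans (le_max_right _ _)).trans hH
  have hH3 : H3 ≤ H := ((le_max_right H2 H3).trans (le_max_right _ _)).trans hH
  have g1 := (h1 (H / 5000) hH1).1
  have g2 := h2 H hH2
  have g3 : (0 : ℝ) < (F4 H).card := by exact_mod_cast (h3 H hH3).1
  have e1 : ∀ S : Finset (ℤ × ℤ), (((S : Set (ℤ × ℤ)) ∩ {c | rk c = 0}).ncard : ℝ) =
      ∑ c ∈ S, (if rk c = 0 then (1 : ℝ) else 0) := by
    intro S
    have : ((S : Set (ℤ × ℤ)) ∩ {c | rk c = 0}) = ((S.filter (fun c => rk c = 0) : Finset _) :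
        Set (ℤ × ℤ)) := by
      ext c; simp
    rw [this, Set.ncard_coe_finset, sum_ite, sum_const, sum_const_zero, add_zero, nsmul_eq_mul,
      mul_one]
  have g4 := rev_sum (fun n => if n = 0 then (1 : ℝ) else 0) (fun a b hab => by
    by_cases hb : b = 0
    · have ha : a = 0 := by omega
      simp [ha, hb]
    · simp only [hb, if_false]
      split_ifs <;> norm_num) (fun n => by split_ifs <;> norm_num) (H / 5000)
  have g5 : ∑ c ∈ F4 (5000 * (H / 5000)), (if rk c = 0 then (1 : ℝ) else 0) ≤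
      ∑ c ∈ F4 H, (if rk c = 0 then (1 : ℝ) else 0) :=
    sum_le_sum_of_subset_of_nonneg (F4_mono (Nat.mul_div_le H 5000))
      (fun c _ _ => by split_ifs <;> norm_num)
  have g6 : (((Cv 2 (H / 5000)).filter (fun k : ℤ × ℤ => (SelR k.1 k.2).Finite ∧
      (SelR k.1 k.2).ncard = 4 ∧ Module.finrank ℤ (Sh k.1 k.2).toAffine.Point = 0)).card : ℝ) ≤
      ∑ c ∈ Cv 2 (H / 5000), (if rk c = 0 then (1 : ℝ) else 0) := by
    rw [← e1]
    have : (((Cv 2 (H / 5000)).filter (fun k : ℤ × ℤ => (SelR k.1 k.2).Finite ∧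
      (SelR k.1 k.2).ncard = 4 ∧ Module.finrank ℤ (Sh k.1 k.2).toAffine.Point = 0)).card) ≤
      (((Cv 2 (H / 5000) : Set (ℤ × ℤ)) ∩ {c | rk c = 0}).ncard) := by
      rw [← Set.ncard_coe_finset]
      apply Set.ncard_le_ncard
      · intro c hc
        rw [mem_coe, mem_filter] at hc
        exact ⟨mem_coe.2 hc.1, hc.2.2.2⟩
      · exact (finite_toSet _).subset Set.inter_subset_left
    exact_mod_cast this
  rw [le_div_iff₀ g3, e1]
  have g7 : c0 * ((Cv 2 (H / 5000)).card : ℝ) ≤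
      3 * ∑ c ∈ F4 H, (if rk c = 0 then (1 : ℝ) else 0) := by linarith
  calc c0 / (3 * D) * ((F4 H).card : ℝ) ≤ c0 / (3 * D) * (D * (Cv 2 (H / 5000)).card) := by
        gcongr
    _ = c0 * ((Cv 2 (H / 5000)).card : ℝ) / 3 := by field_simp
    _ ≤ _ := by linarith

/-- all the moments off a set of density zero -/
theorem moments : ∃ Z : Set (ℤ × ℤ),
    Tendsto (fun H : ℕ => (((F4 H : Set (ℤ × ℤ)) ∩ Z).ncard : ℝ) / ((F4 H).card : ℝ)) atTop (𝓝 0) ∧
    ∀ k : ℕ, ∃ C : ℝ, ∀ H : ℕ, ∑ᶠ c ∈ (F4 H : Set (ℤ × ℤ)) \ Z, ((2 : ℝ) ^ k) ^ rk c ≤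
      C * (F4 H).card := by
  classical
  obtain ⟨Z', hZ1, hZ2⟩ := Pool.Agent.TH344.DT.exc
  obtain ⟨D, hD, H0, hcmp⟩ := compare
  let Gd : ℤ × ℤ → (ℤ × ℤ) × ℤ → Prop := fun c d => FR c d ∧ Dn d.1 ∧ Mn d.1 ∧
    (∀ H : ℕ, Hl H c → Hl (2000000 * H) d.1) ∧ HasT 2 (Sh d.1.1 d.1.2) ∧
      d.2 ^ 3 + d.1.1 * d.2 + d.1.2 = 0 ∧ rk c ≤ rk d.1
  let Z : Set (ℤ × ℤ) := {c | ∀ d, Gd c d → d.1 ∈ Z'}
  have hmem : ∀ (H : ℕ) (c : ℤ × ℤ) (d : (ℤ × ℤ) × ℤ), c ∈ F4 H → Gd c d →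
      d.1 ∈ Cv 2 (2000000 * H) := by
    rintro H c d hc ⟨-, g2, g3, g4, g5, -, -⟩
    exact mem_Cv2.2 ⟨g2, g4 H (mem_F4.1 hc).2.1, g3, g5⟩
  have hex : ∀ (H : ℕ) (c : ℤ × ℤ), c ∈ F4 H → ∃ d, Gd c d := by
    intro H c hc
    obtain ⟨h1, h2, -, e, s, hP⟩ := mem_F4.1 hc
    exact exists_fwd h1 hP
  have hinj : ∀ H : ℕ, ∀ c1 ∈ F4 H, ∀ c2 ∈ F4 H, ∀ d, Gd c1 d → Gd c2 d → c1 = c2 := by
    intro H c1 h1 c2 h2 d r1 r2
    exact FR_inj r1.1 r2.1 (mem_F4.1 h1).2.2.1 (mem_F4.1 h2).2.2.1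
  refine ⟨Z, ?_, fun k => ?_⟩
  · rw [Metric.tendsto_atTop]
    intro ε hε
    obtain ⟨H1, hH1⟩ := hZ1 (ε / (6 * D)) (by positivity)
    refine ⟨max H0 H1, fun H hH => ?_⟩
    have hH0 : H0 ≤ H := (le_max_left _ _).trans hH
    have hH1' : H1 ≤ 2000000 * H := by
      have := (le_max_right H0 H1).trans hH
      omega
    obtain ⟨g1, g2⟩ := hcmp H hH0
    have g1' : (0 : ℝ) < (F4 H).card := by exact_mod_cast g1
    have g3 := hH1 _ hH1'
    have g4 : (((F4 H : Set (ℤ × ℤ)) ∩ Z).ncard : ℝ) ≤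
        3 * (((Cv 2 (2000000 * H)).filter (fun c => c ∈ Z')).card : ℝ) := by
      have e1 : ((F4 H : Set (ℤ × ℤ)) ∩ Z) = (((F4 H).filter (fun c => c ∈ Z) : Finset _) :
          Set (ℤ × ℤ)) := by
        ext c; simp
      rw [e1, Set.ncard_coe_finset]
      have := sum_rel ((F4 H).filter (fun c => c ∈ Z))
        ((Cv 2 (2000000 * H)).filter (fun c => c ∈ Z')) Gd (fun _ => 1) (fun _ => 1)
        (fun _ => zero_le_one) (fun c hc => by
          rw [mem_filter] at hc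
          obtain ⟨d, hd⟩ := hex H c hc.1
          exact ⟨d, hd, mem_filter.2 ⟨hmem H c d hc.1 hd, hc.2 d hd⟩, hd.2.2.2.2.2.1, le_rfl⟩)
        (fun c1 h1 c2 h2 d r1 r2 => hinj H c1 (mem_filter.1 h1).1 c2 (mem_filter.1 h2).1 d r1 r2)
      simpa using this
    rw [Real.dist_eq, sub_zero, abs_of_nonneg (by positivity), div_lt_iff₀ g1']
    calc (((F4 H : Set (ℤ × ℤ)) ∩ Z).ncard : ℝ)
        ≤ 3 * (ε / (6 * D) * (Cv 2 (2000000 * H)).card) := by linarith
      _ ≤ 3 * (ε / (6 * D) * (D * (F4 H).card)) := by gcongr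
      _ = ε / 2 * (F4 H).card := by field_simp; ring
      _ < ε * (F4 H).card := by nlinarith
  · obtain ⟨C, hC⟩ := hZ2 k
    obtain ⟨C', hC'⟩ := all_heights (f := fun c => ((2 : ℝ) ^ k) ^ rk c) (fun c => by positivity)
      (fun c => c ∉ Z) (C := 3 * (max C 0 * D)) (H0 := H0) (fun H hH => by
        obtain ⟨g1, g2⟩ := hcmp H hH
        have h1 := sum_rel ((F4 H).filter (fun c => c ∉ Z))
          ((Cv 2 (2000000 * H)).filter (fun c => c ∉ Z'))
          (fun c d => Gd c d ∧ d.1 ∉ Z') (fun c => ((2 : ℝ) ^ k) ^ rk c)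
          (fun c => ((2 : ℝ) ^ k) ^ rk c)
          (fun c => by positivity) (fun c hc => by
            rw [mem_filter] at hc
            have hcZ := hc.2
            have : ∃ d, Gd c d ∧ d.1 ∉ Z' := by
              by_contra hcon
              push Not at hcon
              exact hcZ hcon
            obtain ⟨d, hd, hdZ⟩ := this
            exact ⟨d, ⟨hd, hdZ⟩, mem_filter.2 ⟨hmem H c d hc.1 hd, hdZ⟩, hd.2.2.2.2.2.1,
              pow_le_pow_right₀ (one_le_pow₀ (by norm_num)) hd.2.2.2.2.2.2⟩)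
          (fun c1 h1 c2 h2 d r1 r2 =>
            hinj H c1 (mem_filter.1 h1).1 c2 (mem_filter.1 h2).1 d r1.1 r2.1)
        have h2 : ∑ c ∈ (Cv 2 (2000000 * H)).filter (fun c => c ∉ Z'), ((2 : ℝ) ^ k) ^ rk c ≤
            ∑ c ∈ (Cv 2 (2000000 * H)).filter (fun c => c ∉ Z'),
              ((SelR c.1 c.2).ncard : ℝ) ^ k := by
          apply sum_le_sum
          intro c hc
          have h2 : ((2 : ℝ) ^ rk c) ≤ (SelR c.1 c.2).ncard := by
            exact_mod_cast rk_le (mem_filter.1 hc).1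
          calc ((2 : ℝ) ^ k) ^ rk c = (2 ^ rk c) ^ k := by
                rw [← pow_mul, mul_comm, pow_mul]
            _ ≤ _ := pow_le_pow_left₀ (by positivity) h2 k
        have h3 := hC (2000000 * H)
        have h5 : C * ((Cv 2 (2000000 * H)).card : ℝ) ≤ max C 0 * (D * (F4 H).card) :=
          mul_le_mul (le_max_left _ _) g2 (Nat.cast_nonneg _) (le_max_right _ _)
        calc _ ≤ 3 * (max C 0 * (D * (F4 H).card)) := by linarith
          _ = _ := by ring)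
    refine ⟨C', fun H => ?_⟩
    have e1 : ((F4 H : Set (ℤ × ℤ)) \ Z) = (((F4 H).filter (fun c => c ∉ Z) : Finset _) :
        Set (ℤ × ℤ)) := by
      ext c; simp
    rw [e1, finsum_mem_coe_finset]
    exact hC' H

end Pool.Agent.Q269.IsoFour
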