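import Mathlib
import Pool.Agent.W135.RT.Par6b

/-!
# Points of order 4 with a rational abscissa
-/

set_option autoImplicit false

namespace Pool.Agent.Q269.IsoFour

open WeierstrassCurve

/-- the curve `y² = x³ + A x + B` over the complex numbers -/
def EC (A B : ℤ) : WeierstrassCurve ℂ := ⟨0, 0, 0, (A : ℂ), (B : ℂ)⟩

/-- there is a complex point of order 4 with a rational abscissa -/
def Has4 (A B : ℤ) : Prop := ∃ (x : ℚ) (y : ℂ) (h : (EC A B).toAffine.Nonsingular (x : ℂ) y),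
  addOrderOf (Affine.Point.some (x : ℂ) y h) = 4

theorem ec_negY (A B : ℤ) (x y : ℂ) : (EC A B).toAffine.negY x y = -y := by
  simp [Affine.negY, EC]

theorem ec_eqn {A B : ℤ} {x y : ℂ} : (EC A B).toAffine.Equation x y ↔ y ^ 2 = x ^ 3 + A * x + B := by
  rw [Affine.equation_iff]
  simp [EC]

theorem ec_disc (A B : ℤ) : (EC A B).Δ = -16 * (4 * (A : ℂ) ^ 3 + 27 * (B : ℂ) ^ 2) := by
  simp only [EC, WeierstrassCurve.Δ, WeierstrassCurve.b₂, WeierstrassCurve.b₄,
    WeierstrassCurve.b₆, WeierstrassCurve.b₈]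
  ring

theorem ec_ne {A B : ℤ} (h : 4 * A ^ 3 + 27 * B ^ 2 ≠ 0) : (EC A B).Δ ≠ 0 := by
  rw [ec_disc]
  have : (4 * (A : ℂ) ^ 3 + 27 * (B : ℂ) ^ 2) ≠ 0 := by exact_mod_cast h
  exact mul_ne_zero (by norm_num) this

theorem ec_slope {A B : ℤ} {x y : ℂ} (hy : y ≠ 0) :
    (EC A B).toAffine.slope x x y y = (3 * x ^ 2 + A) / (2 * y) := by
  have hy' : y ≠ (EC A B).toAffine.negY x y := by
    rw [ec_negY]
    intro h0
    apply hy
    linear_combination (1 / 2) * h0
  rw [Affine.slope_of_Y_ne rfl hy']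
  congr 1
  · simp [EC]
  · rw [ec_negY]; ring

theorem ec_double {A B : ℤ} {x y : ℂ} (h : (EC A B).toAffine.Nonsingular x y) (hy : y ≠ 0) :
    ∃ (x3 y3 : ℂ) (h3 : (EC A B).toAffine.Nonsingular x3 y3),
      Affine.Point.some x y h + Affine.Point.some x y h = Affine.Point.some x3 y3 h3 ∧
      x3 = ((3 * x ^ 2 + A) / (2 * y)) ^ 2 - 2 * x ∧
      y3 = -((3 * x ^ 2 + A) / (2 * y) * (x3 - x) + y) := by
  have hy' : y ≠ (EC A B).toAffine.negY x y := by
    rw [ec_negY]
    intro h0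
    apply hy
    linear_combination (1 / 2) * h0
  refine ⟨_, _, _, Affine.Point.add_self_of_Y_ne hy', ?_, ?_⟩
  · rw [ec_slope hy]
    simp only [Affine.addX, EC]
    ring
  · rw [ec_slope hy]
    simp only [Affine.addY, Affine.negAddY, Affine.addX, Affine.negY, EC]
    ring

theorem has4_iff {A B : ℤ} (hD : 4 * A ^ 3 + 27 * B ^ 2 ≠ 0) :
    Has4 A B ↔ ∃ e s : ℤ, A = s ^ 2 - 3 * e ^ 2 ∧ B = 2 * e ^ 3 - s ^ 2 * e := by
  constructor
  · rintro ⟨x, y, h, hord⟩
    have he := ec_eqn.1 h.1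
    have hP2 : (2 : ℕ) • Affine.Point.some (x : ℂ) y h ≠ 0 := by
      intro h0
      have := addOrderOf_dvd_of_nsmul_eq_zero h0
      rw [hord] at this
      norm_num at this
    have hP4 : (4 : ℕ) • Affine.Point.some (x : ℂ) y h = 0 := by
      rw [← hord]; exact addOrderOf_nsmul_eq_zero _
    have hy : y ≠ 0 := by
      intro h0
      apply hP2
      rw [two_nsmul]
      exact Affine.Point.add_of_Y_eq rfl (by rw [ec_negY, h0, neg_zero])
    obtain ⟨x3, y3, h3, hsum, hx3, hy3⟩ := ec_double h hy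
    have hQ : Affine.Point.some x3 y3 h3 + Affine.Point.some x3 y3 h3 = 0 := by
      rw [← hsum, ← two_nsmul, ← two_nsmul, ← mul_nsmul]
      exact hP4
    have hy30 : y3 = 0 := by
      by_contra hne
      obtain ⟨_, _, _, h5, -, -⟩ := ec_double h3 hne
      rw [h5] at hQ
      exact Affine.Point.some_ne_zero _ hQ
    -- the abscissa of the double is rational
    have hyQ : y ^ 2 = ((x ^ 3 + A * x + B : ℚ) : ℂ) := by rw [he]; push_cast; ring
    have hne : (x ^ 3 + A * x + B : ℚ) ≠ 0 := by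
      intro h0
      rw [h0] at hyQ
      apply hy
      have : y ^ 2 = 0 := by rw [hyQ]; simp
      exact pow_eq_zero_iff (two_ne_zero) |>.1 this
    obtain ⟨e, hedef⟩ : ∃ e : ℚ, e = (3 * x ^ 2 + A) ^ 2 / (4 * (x ^ 3 + A * x + B)) - 2 * x :=
      ⟨_, rfl⟩
    have heC : x3 = (e : ℂ) := by
      rw [hx3, hedef]
      push_cast
      have e1 : ((x : ℂ) ^ 3 + A * x + B) = y ^ 2 := he.symm
      rw [e1]
      congr 1
      rw [div_pow, mul_pow]
      norm_num
    have hroot : e ^ 3 + A * e + B = 0 := by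
      have h5 := ec_eqn.1 h3.1
      rw [hy30, heC] at h5
      have : ((e ^ 3 + A * e + B : ℚ) : ℂ) = 0 := by
        push_cast
        linear_combination -h5
      exact_mod_cast this
    -- the tangent
    have htan : (3 * (x : ℂ) ^ 2 + A) * (x - e) = 2 * y ^ 2 := by
      rw [hy30, heC] at hy3
      have h6 : (3 * (x : ℂ) ^ 2 + A) / (2 * y) * (x - e) = y := by linear_combination -hy3
      have h7 : (3 * (x : ℂ) ^ 2 + A) * (x - e) = ((3 * (x : ℂ) ^ 2 + A) / (2 * y) * (x - e)) *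
        (2 * y) := by field_simp
      rw [h7, h6]; ring
    have htanQ : (3 * x ^ 2 + A) * (x - e) = 2 * (x ^ 3 + A * x + B) := by
      rw [hyQ] at htan
      exact_mod_cast htan
    have hxe : x - e ≠ 0 := by
      intro h0
      rw [h0, mul_zero] at htanQ
      apply hne
      linarith
    have hsq : (x - e) ^ 2 = 3 * e ^ 2 + A := by
      have hB : (B : ℚ) = -e ^ 3 - A * e := by linarith
      rw [hB] at htanQ
      have : (x - e) * ((x - e) ^ 2 - (3 * e ^ 2 + A)) = 0 := by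
        linear_combination htanQ
      have := (mul_eq_zero.1 this).resolve_left hxe
      linarith
    obtain ⟨i, hi⟩ := Pool.Agent.W135.RT.int_root hroot
    -- `x - e` is an integer
    obtain ⟨j, hj⟩ : ∃ j : ℤ, x - e = j := by
      have h8 : _root_.IsIntegral ℤ (x - e) := by
        have h9 : _root_.IsIntegral ℤ ((x - e) ^ 2) := by
          rw [hsq, hi]
          have : (3 * (i : ℚ) ^ 2 + A) = ((3 * i ^ 2 + A : ℤ) : ℚ) := by push_cast; ring
          rw [this]
          exact isIntegral_algebraMap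
        exact (IsIntegral.pow_iff (by norm_num)).1 h9
      obtain ⟨j, hj⟩ := IsIntegrallyClosed.isIntegral_iff.1 h8
      exact ⟨j, by rw [← hj]; rfl⟩
    have hA : (A : ℚ) = ((j ^ 2 - 3 * i ^ 2 : ℤ) : ℚ) := by
      push_cast
      rw [← hj, ← hi]
      linarith
    have hA' : A = j ^ 2 - 3 * i ^ 2 := by exact_mod_cast hA
    refine ⟨i, j, hA', ?_⟩
    rw [hi] at hroot
    have h10 : i ^ 3 + A * i + B = 0 := by exact_mod_cast hroot
    rw [hA'] at h10
    linarith
  · rintro ⟨e, s, hA, hB⟩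
    have hdisc : 4 * A ^ 3 + 27 * B ^ 2 = s ^ 4 * (4 * s ^ 2 - 9 * e ^ 2) := by
      rw [hA, hB]; ring
    rw [hdisc] at hD
    have hs : s ≠ 0 := by
      rintro rfl; apply hD; ring
    have h3e : 2 * s + 3 * e ≠ 0 := by
      intro h
      apply hD
      have : 4 * s ^ 2 - 9 * e ^ 2 = (2 * s + 3 * e) * (2 * s - 3 * e) := by ring
      rw [this, h]; ring
    obtain ⟨y, hy⟩ : ∃ y : ℂ, y ^ 2 = ((s : ℂ) ^ 2 * (2 * s + 3 * e)) :=
      IsAlgClosed.exists_pow_nat_eq _ (by norm_num)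
    have hsC : (s : ℂ) ≠ 0 := by exact_mod_cast hs
    have h3C : (2 * (s : ℂ) + 3 * e) ≠ 0 := by exact_mod_cast h3e
    have hy0 : y ≠ 0 := by
      intro h
      rw [h] at hy
      have : (s : ℂ) ^ 2 * (2 * s + 3 * e) ≠ 0 := mul_ne_zero (pow_ne_zero 2 hsC) h3C
      apply this
      rw [← hy]; ring
    have hAC : (A : ℂ) = s ^ 2 - 3 * e ^ 2 := by rw [hA]; push_cast; ring
    have hBC : (B : ℂ) = 2 * e ^ 3 - s ^ 2 * e := by rw [hB]; push_cast; ring
    have hD' : 4 * A ^ 3 + 27 * B ^ 2 ≠ 0 := by rw [hdisc]; exact hD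
    have hxc : (((e + s : ℤ) : ℚ) : ℂ) = (e : ℂ) + s := by push_cast; ring
    have hns : (EC A B).toAffine.Nonsingular (((e + s : ℤ) : ℚ) : ℂ) y := by
      apply ((EC A B).toAffine.equation_iff_nonsingular_of_Δ_ne_zero (ec_ne hD')).1
      rw [ec_eqn, hxc, hAC, hBC, hy]
      ring
    refine ⟨((e + s : ℤ) : ℚ), y, hns, ?_⟩
    obtain ⟨x3, y3, h3, hsum, hx3, hy3⟩ := ec_double hns hy0
    have hl : (3 * (((e + s : ℤ) : ℚ) : ℂ) ^ 2 + A) / (2 * y) = y / s := by
      rw [div_eq_div_iff (mul_ne_zero two_ne_zero hy0) hsC, hxc, hAC]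
      have : y * (2 * y) = 2 * y ^ 2 := by ring
      rw [this, hy]
      ring
    have hx3' : x3 = e := by
      rw [hx3, hl, hxc, div_pow, hy]
      field_simp
      ring
    have hy3' : y3 = 0 := by
      rw [hy3, hl, hxc, hx3']
      field_simp
      ring
    have hQ : Affine.Point.some x3 y3 h3 + Affine.Point.some x3 y3 h3 = 0 :=
      Affine.Point.add_of_Y_eq rfl (by rw [ec_negY, hy3', neg_zero])
    have h22 : (4 : ℕ) = 2 ^ (1 + 1) := by norm_num
    rw [h22]
    apply addOrderOf_eq_prime_pow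
    · rw [pow_one, two_nsmul, hsum]
      exact Affine.Point.some_ne_zero _
    · have : (2 : ℕ) ^ (1 + 1) = 2 * 2 := by norm_num
      rw [this, mul_nsmul, two_nsmul, two_nsmul, hsum]
      exact hQ

end Pool.Agent.Q269.IsoFour
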