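import Pool.Agent.Q269.IsoFour.Maps

/-!
# The correspondence between the two families
-/

set_option autoImplicit false

namespace Pool.Agent.Q269.IsoFour

open Finset
open Pool.Agent.W307.RT (Sh Cv HasT)

/-- the relation of a curve of the first family and a curve with full 2-torsion with a root -/
def FR (c : ℤ × ℤ) (d : (ℤ × ℤ) × ℤ) : Prop := ∃ e s u : ℤ, Pr c e s ∧ 0 < u ∧
  -2 * e = u ^ 2 * d.2 ∧ -3 * e ^ 2 - 4 * s ^ 2 = u ^ 4 * d.1.1 ∧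
  2 * e ^ 3 - 8 * e * s ^ 2 = u ^ 6 * d.1.2

theorem FR_inj {c1 c2 : ℤ × ℤ} {d : (ℤ × ℤ) × ℤ} (h1 : FR c1 d) (h2 : FR c2 d) (m1 : Mn c1)
    (m2 : Mn c2) : c1 = c2 := by
  obtain ⟨e1, s1, u1, ⟨a1, b1⟩, hu1, p1, q1, -⟩ := h1
  obtain ⟨e2, s2, u2, ⟨a2, b2⟩, hu2, p2, q2, -⟩ := h2
  have he : e1 * u2 ^ 2 = e2 * u1 ^ 2 := by
    have : 2 * (e1 * u2 ^ 2) = 2 * (e2 * u1 ^ 2) := by
      linear_combination (-u2 ^ 2) * p1 + u1 ^ 2 * p2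
    linarith
  have hs : s1 ^ 2 * u2 ^ 4 = s2 ^ 2 * u1 ^ 4 := by
    have : 4 * (s1 ^ 2 * u2 ^ 4) = 4 * (s2 ^ 2 * u1 ^ 4) := by
      linear_combination (-u2 ^ 4) * q1 + u1 ^ 4 * q2 - 3 * (e1 * u2 ^ 2 + e2 * u1 ^ 2) * he
    linarith
  apply min_unique m1 m2 hu2 hu1
  · rw [a1, a2]
    linear_combination hs - 3 * (e1 * u2 ^ 2 + e2 * u1 ^ 2) * he
  · rw [b1, b2]
    have e1' : (2 * e1 ^ 3 - s1 ^ 2 * e1) * u2 ^ 6 =
      2 * (e1 * u2 ^ 2) ^ 3 - (s1 ^ 2 * u2 ^ 4) * (e1 * u2 ^ 2) := by ring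
    have e2' : (2 * e2 ^ 3 - s2 ^ 2 * e2) * u1 ^ 6 =
      2 * (e2 * u1 ^ 2) ^ 3 - (s2 ^ 2 * u1 ^ 4) * (e2 * u1 ^ 2) := by ring
    rw [e1', e2', he, hs]

/-- bound for the parameters -/
theorem par_bound {p q H : ℤ} (hp : 0 ≤ p) (hq : 0 ≤ q) (h1 : 4 * |q - 3 * p| ^ 3 ≤ H)
    (h2 : 27 * (p * (2 * p - q) ^ 2) ≤ H) : p ^ 3 ≤ 1024 * H ∧ q ^ 3 ≤ 1024 * H := by
  have hH : 0 ≤ H := by
    have : 0 ≤ p * (2 * p - q) ^ 2 := mul_nonneg hp (sq_nonneg _)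
    linarith
  have cube : ∀ x y : ℤ, 0 ≤ x → x ≤ y → x ^ 3 ≤ y ^ 3 := fun x y hx hxy =>
    pow_le_pow_left₀ hx hxy 3
  have habs : 0 ≤ |q - 3 * p| := abs_nonneg _
  rcases le_or_gt (4 * p) q with h | h
  · have e1 : q ≤ 4 * |q - 3 * p| := by
      have := le_abs_self (q - 3 * p)
      linarith
    have e2 := cube q (4 * |q - 3 * p|) hq e1
    have e3 : (4 * |q - 3 * p|) ^ 3 = 16 * (4 * |q - 3 * p| ^ 3) := by ring
    have e4 := cube p q hp (by linarith)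
    constructor <;> linarith
  · rcases le_or_gt p (4 * |q - 3 * p|) with h' | h'
    · have e1 := cube p _ hp h'
      have e3 : (4 * |q - 3 * p|) ^ 3 = 16 * (4 * |q - 3 * p| ^ 3) := by ring
      have e4 := cube q (4 * p) hq h.le
      have e5 : (4 * p) ^ 3 = 64 * p ^ 3 := by ring
      constructor <;> linarith
    · have e1 : 3 * p ≤ 4 * (q - 2 * p) := by
        have := neg_abs_le (q - 3 * p)
        linarith
      have e2 : (3 * p) ^ 2 ≤ (4 * (q - 2 * p)) ^ 2 := pow_le_pow_left₀ (by linarith) e1 2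
      have e3 : 9 * p ^ 3 ≤ 16 * (p * (2 * p - q) ^ 2) := by
        have := mul_le_mul_of_nonneg_left e2 hp
        linarith
      have e4 := cube q (4 * p) hq h.le
      have e5 : (4 * p) ^ 3 = 64 * p ^ 3 := by ring
      constructor <;> linarith

theorem fwd_height {c : ℤ × ℤ} {e s : ℤ} {H : ℕ} (hP : Pr c e s) (hH : Hl H c) :
    4 * |(-3 * e ^ 2 - 4 * s ^ 2)| ^ 3 ≤ 2000000 * (H : ℤ) ∧
      27 * (2 * e ^ 3 - 8 * e * s ^ 2) ^ 2 ≤ 2000000 * (H : ℤ) := by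
  obtain ⟨hA, hB⟩ := hP
  obtain ⟨h1, h2⟩ := hH
  obtain ⟨p, hp⟩ : ∃ p, p = e ^ 2 := ⟨_, rfl⟩
  obtain ⟨q, hq⟩ : ∃ q, q = s ^ 2 := ⟨_, rfl⟩
  have hp0 : 0 ≤ p := by rw [hp]; positivity
  have hq0 : 0 ≤ q := by rw [hq]; positivity
  rw [hA, ← hp, ← hq] at h1
  have hB2 : c.2 ^ 2 = p * (2 * p - q) ^ 2 := by rw [hB, hp, hq]; ring
  rw [hB2] at h2
  obtain ⟨b1, b2⟩ := par_bound hp0 hq0 h1 h2
  obtain ⟨M, hM⟩ : ∃ M, M = max p q := ⟨_, rfl⟩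
  have hpM : p ≤ M := by rw [hM]; exact le_max_left _ _
  have hqM : q ≤ M := by rw [hM]; exact le_max_right _ _
  have hM0 : 0 ≤ M := hp0.trans hpM
  have hM3 : M ^ 3 ≤ 1024 * H := by
    rcases max_choice p q with h | h
    · rw [hM, h]; exact b1
    · rw [hM, h]; exact b2
  have hH0 : (0 : ℤ) ≤ H := by positivity
  constructor
  · have e1 : |(-3 * e ^ 2 - 4 * s ^ 2)| = 3 * p + 4 * q := by
      have : -3 * e ^ 2 - 4 * s ^ 2 = -(3 * p + 4 * q) := by rw [hp, hq]; ring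
      rw [this, abs_neg, abs_of_nonneg (by linarith)]
    rw [e1]
    have e2 : (3 * p + 4 * q) ^ 3 ≤ (7 * M) ^ 3 := pow_le_pow_left₀ (by linarith) (by linarith) 3
    have e3 : (7 * M) ^ 3 = 343 * M ^ 3 := by ring
    linarith
  · have e1 : (2 * e ^ 3 - 8 * e * s ^ 2) ^ 2 = 4 * (p * (p - 4 * q) ^ 2) := by
      rw [hp, hq]; ring
    rw [e1]
    have e2 : (p - 4 * q) ^ 2 ≤ (4 * M) ^ 2 := by
      apply sq_le_sq'
      · linarith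
      · linarith
    have e3 : p * (p - 4 * q) ^ 2 ≤ M * (4 * M) ^ 2 :=
      mul_le_mul hpM e2 (sq_nonneg _) hM0
    have e4 : M * (4 * M) ^ 2 = 16 * M ^ 3 := by ring
    linarith

theorem exists_fwd {c : ℤ × ℤ} {e s : ℤ} (hD : Dn c) (hP : Pr c e s) :
    ∃ d : (ℤ × ℤ) × ℤ, FR c d ∧ Dn d.1 ∧ Mn d.1 ∧ (∀ H : ℕ, Hl H c → Hl (2000000 * H) d.1) ∧
      HasT 2 (Sh d.1.1 d.1.2) ∧ d.2 ^ 3 + d.1.1 * d.2 + d.1.2 = 0 ∧ rk c ≤ rk d.1 := by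
  obtain ⟨hA, hB⟩ := hP
  obtain ⟨hD', hrk⟩ := rank_le hA hB hD
  obtain ⟨u, c', hu, h1, h2, hDc, hMc⟩ := exists_min _
    ((-3 * e ^ 2 - 4 * s ^ 2, 2 * e ^ 3 - 8 * e * s ^ 2) : ℤ × ℤ) le_rfl hD'
  change -3 * e ^ 2 - 4 * s ^ 2 = u ^ 4 * c'.1 at h1
  change 2 * e ^ 3 - 8 * e * s ^ 2 = u ^ 6 * c'.2 at h2
  obtain ⟨r1, hr1, hr1'⟩ := scaled_root (e := -2 * e) hu h1 h2 (by ring)
  obtain ⟨r2, hr2, hr2'⟩ := scaled_root (e := e + 2 * s) hu h1 h2 (by ring)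
  obtain ⟨r3, hr3, hr3'⟩ := scaled_root (e := e - 2 * s) hu h1 h2 (by ring)
  have hu2 : u ^ 2 ≠ 0 := pow_ne_zero 2 hu.ne'
  have hsum : r1 + r2 + r3 = 0 := by
    apply mul_left_cancel₀ hu2
    linear_combination -hr1 - hr2 - hr3
  have hdisc : 4 * c.1 ^ 3 + 27 * c.2 ^ 2 = s ^ 4 * (4 * s ^ 2 - 9 * e ^ 2) := by
    rw [hA, hB]; ring
  have hs : s ≠ 0 := by
    rintro rfl
    apply hD
    rw [hdisc]; ring
  have h12 : r1 ≠ r2 := by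
    intro h
    rw [h] at hr1
    have : 2 * s = -3 * e := by linarith
    apply hD
    rw [hdisc]
    have h4 : 4 * s ^ 2 - 9 * e ^ 2 = (2 * s - 3 * e) * (2 * s + 3 * e) := by ring
    rw [h4, this]; ring
  have h13 : r1 ≠ r3 := by
    intro h
    rw [h] at hr1
    have : 2 * s = 3 * e := by linarith
    apply hD
    rw [hdisc]
    have h4 : 4 * s ^ 2 - 9 * e ^ 2 = (2 * s - 3 * e) * (2 * s + 3 * e) := by ring
    rw [h4, this]; ring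
  have h23 : r2 ≠ r3 := by
    intro h
    rw [h] at hr2
    apply hs
    linarith
  have hc1 : c'.1 = r1 * r2 + r1 * r3 + r2 * r3 := by
    apply mul_left_cancel₀ (pow_ne_zero 4 hu.ne')
    have : u ^ 4 * (r1 * r2 + r1 * r3 + r2 * r3) = (u ^ 2 * r1) * (u ^ 2 * r2) +
      (u ^ 2 * r1) * (u ^ 2 * r3) + (u ^ 2 * r2) * (u ^ 2 * r3) := by ring
    rw [this, ← hr1, ← hr2, ← hr3, ← h1]
    ring
  have hc2 : c'.2 = -(r1 * r2 * r3) := by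
    apply mul_left_cancel₀ (pow_ne_zero 6 hu.ne')
    have : u ^ 6 * (-(r1 * r2 * r3)) = -((u ^ 2 * r1) * (u ^ 2 * r2) * (u ^ 2 * r3)) := by ring
    rw [this, ← hr1, ← hr2, ← hr3, ← h2]
    ring
  refine ⟨(c', r1), ⟨e, s, u, ⟨hA, hB⟩, hu, hr1, h1, h2⟩, hDc, hMc, ?_,
    full_of_roots hsum h12 h13 h23 hc1 hc2, hr1', ?_⟩
  · intro H hH
    obtain ⟨g1, g2⟩ := fwd_height ⟨hA, hB⟩ hH
    have hu1 : (1 : ℤ) ≤ u := hu
    constructor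
    · have e1 : |c'.1| ≤ |(-3 * e ^ 2 - 4 * s ^ 2)| := by
        rw [h1, abs_mul, abs_of_nonneg (by positivity : (0 : ℤ) ≤ u ^ 4)]
        have : 1 ≤ u ^ 4 := one_le_pow₀ hu1
        nlinarith [abs_nonneg c'.1]
      have e2 := pow_le_pow_left₀ (abs_nonneg _) e1 3
      push_cast
      change 4 * |c'.1| ^ 3 ≤ _
      linarith
    · have e1 : c'.2 ^ 2 ≤ (2 * e ^ 3 - 8 * e * s ^ 2) ^ 2 := by
        rw [h2, mul_pow]
        have : 1 ≤ (u ^ 6) ^ 2 := one_le_pow₀ (one_le_pow₀ hu1)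
        nlinarith [sq_nonneg c'.2]
      push_cast
      change 27 * c'.2 ^ 2 ≤ _
      linarith
  · refine hrk.trans (le_of_eq ?_)
    exact rank_scale hu.ne' h1 h2 hDc

/-- the reverse relation -/
def RR (c : ℤ × ℤ) (d : (ℤ × ℤ) × ℤ) : Prop := ∃ e s w : ℤ, 0 < w ∧
  -3 * e ^ 2 - 4 * s ^ 2 = 2 ^ 4 * c.1 ∧ 2 * e ^ 3 - 8 * e * s ^ 2 = 2 ^ 6 * c.2 ∧
  e = w ^ 2 * d.2 ∧ s ^ 2 - 3 * e ^ 2 = w ^ 4 * d.1.1 ∧ 2 * e ^ 3 - s ^ 2 * e = w ^ 6 * d.1.2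

theorem RR_inj {c1 c2 : ℤ × ℤ} {d : (ℤ × ℤ) × ℤ} (h1 : RR c1 d) (h2 : RR c2 d) (m1 : Mn c1)
    (m2 : Mn c2) : c1 = c2 := by
  obtain ⟨e1, s1, w1, hw1, a1, b1, p1, q1, -⟩ := h1
  obtain ⟨e2, s2, w2, hw2, a2, b2, p2, q2, -⟩ := h2
  have he : e1 * w2 ^ 2 = e2 * w1 ^ 2 := by rw [p1, p2]; ring
  have hs : s1 ^ 2 * w2 ^ 4 = s2 ^ 2 * w1 ^ 4 := by
    linear_combination w2 ^ 4 * q1 - w1 ^ 4 * q2 + 3 * (e1 * w2 ^ 2 + e2 * w1 ^ 2) * he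
  apply min_unique m1 m2 hw2 hw1
  · have : 2 ^ 4 * (c1.1 * w2 ^ 4) = 2 ^ 4 * (c2.1 * w1 ^ 4) := by
      linear_combination (-w2 ^ 4) * a1 + w1 ^ 4 * a2 - 4 * hs -
        3 * (e1 * w2 ^ 2 + e2 * w1 ^ 2) * he
    linarith
  · have e1' : 2 ^ 6 * (c1.2 * w2 ^ 6) =
      2 * (e1 * w2 ^ 2) ^ 3 - 8 * (e1 * w2 ^ 2) * (s1 ^ 2 * w2 ^ 4) := by
      linear_combination (-w2 ^ 6) * b1
    have e2' : 2 ^ 6 * (c2.2 * w1 ^ 6) =
      2 * (e2 * w1 ^ 2) ^ 3 - 8 * (e2 * w1 ^ 2) * (s2 ^ 2 * w1 ^ 4) := by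
      linear_combination (-w1 ^ 6) * b2
    rw [he, hs] at e1'
    linarith

theorem exists_rev {c : ℤ × ℤ} {H : ℕ} (hD : Dn c) (hT : HasT 2 (Sh c.1 c.2)) (hH : Hl H c) :
    ∃ d : (ℤ × ℤ) × ℤ, RR c d ∧ Dn d.1 ∧ Mn d.1 ∧ Hl (5000 * H) d.1 ∧ (∃ e s, Pr d.1 e s) ∧
      d.2 ^ 3 + d.1.1 * d.2 + d.1.2 = 0 ∧ rk d.1 ≤ rk c := by
  obtain ⟨r1, r2, r3, hsum, h12, h13, h23, hc1, hc2⟩ := roots_of_full hD hT
  obtain ⟨e, he⟩ : ∃ e, e = -2 * r1 := ⟨_, rfl⟩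
  obtain ⟨s, hs⟩ : ∃ s, s = r2 - r3 := ⟨_, rfl⟩
  have h3 : r3 = -r1 - r2 := by linarith
  have hA' : -3 * e ^ 2 - 4 * s ^ 2 = 2 ^ 4 * c.1 := by
    rw [he, hs, hc1, h3]; ring
  have hB' : 2 * e ^ 3 - 8 * e * s ^ 2 = 2 ^ 6 * c.2 := by
    rw [he, hs, hc2, h3]; ring
  have hD0 : Dn (s ^ 2 - 3 * e ^ 2, 2 * e ^ 3 - s ^ 2 * e) := by
    change 4 * (s ^ 2 - 3 * e ^ 2) ^ 3 + 27 * (2 * e ^ 3 - s ^ 2 * e) ^ 2 ≠ 0
    have : 4 * (s ^ 2 - 3 * e ^ 2) ^ 3 + 27 * (2 * e ^ 3 - s ^ 2 * e) ^ 2 =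
      s ^ 4 * ((2 * s - 3 * e) * (2 * s + 3 * e)) := by ring
    rw [this]
    refine mul_ne_zero (pow_ne_zero 4 ?_) (mul_ne_zero ?_ ?_)
    · rw [hs]; exact sub_ne_zero.2 h23
    · rw [hs, he]
      intro h
      apply h13
      linarith
    · rw [hs, he]
      intro h
      apply h12
      linarith
  obtain ⟨w, c0, hw, g1, g2, hD1, hM1⟩ := exists_min _ _ le_rfl hD0
  change s ^ 2 - 3 * e ^ 2 = w ^ 4 * c0.1 at g1
  change 2 * e ^ 3 - s ^ 2 * e = w ^ 6 * c0.2 at g2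
  obtain ⟨e0, he0, he0'⟩ := scaled_root (e := e) hw g1 g2 (by ring)
  have hws : (w ^ 2) ^ 2 ∣ s ^ 2 := by
    refine ⟨c0.1 + 3 * e0 ^ 2, ?_⟩
    rw [he0] at g1
    linear_combination g1
  obtain ⟨s0, hs0⟩ := (Int.pow_dvd_pow_iff (by norm_num)).1 hws
  have hw4 : w ^ 4 ≠ 0 := pow_ne_zero 4 hw.ne'
  have hw6 : w ^ 6 ≠ 0 := pow_ne_zero 6 hw.ne'
  refine ⟨(c0, e0), ⟨e, s, w, hw, hA', hB', he0, g1, g2⟩, hD1, hM1, ?_, ⟨e0, s0, ?_, ?_⟩, he0', ?_⟩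
  · -- heights
    obtain ⟨H1, H2⟩ := hH
    obtain ⟨a, ha⟩ : ∃ a, a = -c.1 := ⟨_, rfl⟩
    have ha4 : 4 * a = 3 * r1 ^ 2 + s ^ 2 := by rw [ha, hc1, hs, h3]; ring
    have ha0 : 0 ≤ a := by
      have := sq_nonneg r1
      have := sq_nonneg s
      linarith
    have hca : |c.1| = a := by
      have : c.1 = -a := by rw [ha]; ring
      rw [this, abs_neg, abs_of_nonneg ha0]
    rw [hca] at H1
    obtain ⟨p, hp⟩ : ∃ p, p = e ^ 2 := ⟨_, rfl⟩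
    obtain ⟨q, hq⟩ : ∃ q, q = s ^ 2 := ⟨_, rfl⟩
    have hp0 : 0 ≤ p := by rw [hp]; positivity
    have hq0 : 0 ≤ q := by rw [hq]; positivity
    have hp4 : p = 4 * r1 ^ 2 := by rw [hp, he]; ring
    have hpa : 3 * p + 4 * q = 16 * a := by rw [hp4, hq]; linarith
    have hw1 : (1 : ℤ) ≤ w := hw
    constructor
    · have e1 : |c0.1| ≤ 16 * a := by
        have e2 : |c0.1| ≤ |s ^ 2 - 3 * e ^ 2| := by
          rw [g1, abs_mul, abs_of_nonneg (by positivity : (0 : ℤ) ≤ w ^ 4)]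
          have : 1 ≤ w ^ 4 := one_le_pow₀ hw1
          nlinarith [abs_nonneg c0.1]
        refine e2.trans ?_
        rw [← hp, ← hq, abs_le]
        constructor <;> linarith
      have e2 := pow_le_pow_left₀ (abs_nonneg _) e1 3
      have e3 : (16 * a) ^ 3 = 1024 * (4 * a ^ 3) := by ring
      push_cast
      change 4 * |c0.1| ^ 3 ≤ _
      linarith
    · have e1 : c0.2 ^ 2 ≤ (2 * e ^ 3 - s ^ 2 * e) ^ 2 := by
        rw [g2, mul_pow]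
        have : 1 ≤ (w ^ 6) ^ 2 := one_le_pow₀ (one_le_pow₀ hw1)
        nlinarith [sq_nonneg c0.2]
      have e2 : (2 * e ^ 3 - s ^ 2 * e) ^ 2 = p * (2 * p - q) ^ 2 := by rw [hp, hq]; ring
      have e3 : (2 * p - q) ^ 2 ≤ (11 * a) ^ 2 := by
        apply sq_le_sq'
        · linarith
        · linarith
      have e4 : p * (2 * p - q) ^ 2 ≤ (6 * a) * (11 * a) ^ 2 :=
        mul_le_mul (by linarith) e3 (sq_nonneg _) (by linarith)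
      have e5 : (6 * a) * (11 * a) ^ 2 = 726 * a ^ 3 := by ring
      have e6 : 0 ≤ a ^ 3 := by positivity
      push_cast
      change 27 * c0.2 ^ 2 ≤ _
      linarith
  · change c0.1 = s0 ^ 2 - 3 * e0 ^ 2
    apply mul_left_cancel₀ hw4
    rw [← g1, he0, hs0]; ring
  · change c0.2 = 2 * e0 ^ 3 - s0 ^ 2 * e0
    apply mul_left_cancel₀ hw6
    rw [← g2, he0, hs0]; ring
  · have hr := (rank_le (A := s ^ 2 - 3 * e ^ 2) (B := 2 * e ^ 3 - s ^ 2 * e) rfl rfl hD0).2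
    have r1 := rank_scale hw.ne' g1 g2 hD1
    have r2 := rank_scale (u := 2) (by norm_num) hA' hB' hD
    unfold rk
    change Module.finrank ℤ (Sh c0.1 c0.2).toAffine.Point ≤ _
    rw [← r1, ← r2]
    exact hr

end Pool.Agent.Q269.IsoFour
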