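import Mathlib

/-!
# The 2-isogeny of the curve `y² = x³ + a x² + b x`

The map `(x, y) ↦ (y² / x², y (b - x²) / x²)` to the curve `y² = x³ - 2 a x² + (a² - 4 b) x` is a
homomorphism of groups.
-/

set_option autoImplicit false

namespace Pool.Agent.Q269.IsoFour

open WeierstrassCurve

section

variable {F : Type} [Field F]

/-- the curve `y² = x³ + a x² + b x` -/
def Wab (a b : F) : WeierstrassCurve F := ⟨0, a, 0, b, 0⟩

theorem eqn {a b x y : F} : (Wab a b).toAffine.Equation x y ↔ y ^ 2 = x ^ 3 + a * x ^ 2 + b * x := by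
  rw [Affine.equation_iff]
  simp [Wab]

theorem delta (a b : F) : (Wab a b).Δ = 16 * b ^ 2 * (a ^ 2 - 4 * b) := by
  simp only [Wab, WeierstrassCurve.Δ, WeierstrassCurve.b₂, WeierstrassCurve.b₄,
    WeierstrassCurve.b₆, WeierstrassCurve.b₈]
  ring

theorem nonsing {a b : F} (hD : (Wab a b).Δ ≠ 0) {x y : F}
    (h : y ^ 2 = x ^ 3 + a * x ^ 2 + b * x) : (Wab a b).toAffine.Nonsingular x y :=
  ((Wab a b).toAffine.equation_iff_nonsingular_of_Δ_ne_zero hD).1 (eqn.2 h)

theorem negY (a b x y : F) : (Wab a b).toAffine.negY x y = -y := by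
  simp [Affine.negY, Wab]

theorem some_congr {W : WeierstrassCurve F} {x y x' y' : F} (hx : x = x') (hy : y = y')
    (h : W.toAffine.Nonsingular x y) (h' : W.toAffine.Nonsingular x' y') :
    Affine.Point.some x y h = Affine.Point.some x' y' h' := by
  subst hx; subst hy; rfl

variable [DecidableEq F]

theorem add_chord {a b x1 y1 x2 y2 x3 y3 l : F} (h1 : (Wab a b).toAffine.Nonsingular x1 y1)
    (h2 : (Wab a b).toAffine.Nonsingular x2 y2) (h3 : (Wab a b).toAffine.Nonsingular x3 y3)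
    (hx : x1 ≠ x2) (hl : l * (x1 - x2) = y1 - y2) (hx3 : x3 = l ^ 2 - a - x1 - x2)
    (hy3 : y3 = -(l * (x3 - x1) + y1)) :
    Affine.Point.some x1 y1 h1 + Affine.Point.some x2 y2 h2 = Affine.Point.some x3 y3 h3 := by
  have hs : (Wab a b).toAffine.slope x1 x2 y1 y2 = l := by
    rw [Affine.slope_of_X_ne hx, ← hl]
    exact mul_div_cancel_right₀ _ (sub_ne_zero.2 hx)
  rw [Affine.Point.add_of_X_ne hx]
  refine some_congr ?_ ?_ _ _
  · rw [hs, hx3]
    simp only [Affine.addX, Wab]
    ring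
  · rw [hs, hy3, hx3]
    simp only [Affine.addY, Affine.negAddY, Affine.addX, Affine.negY, Wab]
    ring

theorem add_tangent (two : (2 : F) ≠ 0) {a b x y x3 y3 l : F} (h : (Wab a b).toAffine.Nonsingular x y)
    (h3 : (Wab a b).toAffine.Nonsingular x3 y3)
    (hy : y ≠ 0) (hl : l * (2 * y) = 3 * x ^ 2 + 2 * a * x + b) (hx3 : x3 = l ^ 2 - a - 2 * x)
    (hy3 : y3 = -(l * (x3 - x) + y)) :
    Affine.Point.some x y h + Affine.Point.some x y h = Affine.Point.some x3 y3 h3 := by
  have hy' : y ≠ (Wab a b).toAffine.negY x y := by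
    rw [negY]
    intro h0
    have : 2 * y = 0 := by linear_combination h0
    rcases mul_eq_zero.1 this with h1 | h1
    · exact two h1
    · exact hy h1
  have hs : (Wab a b).toAffine.slope x x y y = l := by
    rw [Affine.slope_of_Y_ne rfl hy']
    have hd : y - (Wab a b).toAffine.negY x y = 2 * y := by rw [negY]; ring
    rw [hd]
    have hn : 3 * x ^ 2 + 2 * (Wab a b).toAffine.a₂ * x + (Wab a b).toAffine.a₄
        - (Wab a b).toAffine.a₁ * y = l * (2 * y) := by
      rw [hl]; simp [Wab]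
    rw [hn]
    exact mul_div_cancel_right₀ _ (mul_ne_zero two hy)
  rw [Affine.Point.add_self_of_Y_ne hy']
  refine some_congr ?_ ?_ _ _
  · rw [hs, hx3]
    simp only [Affine.addX, Wab]
    ring
  · rw [hs, hy3, hx3]
    simp only [Affine.addY, Affine.negAddY, Affine.addX, Affine.negY, Wab]
    ring

end

section

variable {F : Type} [Field F] {a b : F}

/-- the equation of the image -/
theorem img {x y : F} (hx : x ≠ 0) (h : y ^ 2 = x ^ 3 + a * x ^ 2 + b * x) :
    (y * (b - x ^ 2) / x ^ 2) ^ 2 = (y ^ 2 / x ^ 2) ^ 3 + (-2 * a) * (y ^ 2 / x ^ 2) ^ 2 +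
      (a ^ 2 - 4 * b) * (y ^ 2 / x ^ 2) := by
  have hX : y ^ 2 / x ^ 2 = (x ^ 2 + a * x + b) / x := by
    rw [h]; field_simp
  have hY : (y * (b - x ^ 2) / x ^ 2) ^ 2 = (y ^ 2 / x ^ 2) * ((b - x ^ 2) ^ 2 / x ^ 2) := by
    field_simp
  rw [hY, hX]
  field_simp
  ring

open Classical in
/-- the isogeny -/
noncomputable def phi (hD : (Wab (-2 * a) (a ^ 2 - 4 * b)).Δ ≠ 0) :
    (Wab a b).toAffine.Point → (Wab (-2 * a) (a ^ 2 - 4 * b)).toAffine.Point
  | 0 => 0
  | .some x y hn => if hx : x = 0 then 0 else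
      .some (y ^ 2 / x ^ 2) (y * (b - x ^ 2) / x ^ 2) (nonsing hD (img hx (eqn.1 hn.1)))

variable (hD : (Wab (-2 * a) (a ^ 2 - 4 * b)).Δ ≠ 0)

theorem phi_zero : phi hD 0 = 0 := rfl

theorem phi_some {x y : F} (hn : (Wab a b).toAffine.Nonsingular x y) (hx : x ≠ 0) :
    phi hD (.some x y hn) =
      .some (y ^ 2 / x ^ 2) (y * (b - x ^ 2) / x ^ 2) (nonsing hD (img hx (eqn.1 hn.1))) :=
  dif_neg hx

theorem phi_T {x y : F} (hn : (Wab a b).toAffine.Nonsingular x y) (hx : x = 0) :
    phi hD (.some x y hn) = 0 := dif_pos hx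

variable [DecidableEq F]

theorem phi_neg (P : (Wab a b).toAffine.Point) : phi hD (-P) = -phi hD P := by
  rcases P with _ | ⟨x, y, hn⟩
  · rfl
  · rw [Affine.Point.neg_some]
    by_cases hx : x = 0
    · rw [phi_T hD _ hx, phi_T hD _ hx, neg_zero]
    · rw [phi_some hD _ hx, phi_some hD _ hx, Affine.Point.neg_some]
      refine some_congr ?_ ?_ _ _
      · rw [negY]; ring
      · rw [negY, negY]; ring

theorem bne (hD : (Wab (-2 * a) (a ^ 2 - 4 * b)).Δ ≠ 0) : b ≠ 0 ∧ a ^ 2 - 4 * b ≠ 0 := by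
  rw [delta] at hD
  constructor
  · rintro rfl
    apply hD
    ring
  · intro h
    apply hD
    rw [h]; ring

theorem delta_ne (hD : (Wab (-2 * a) (a ^ 2 - 4 * b)).Δ ≠ 0) : (Wab a b).Δ ≠ 0 := by
  obtain ⟨h1, h2⟩ := bne hD
  have h16 : (16 : F) ≠ 0 := by
    intro h
    rw [delta, h] at hD
    apply hD
    ring
  rw [delta]
  exact mul_ne_zero (mul_ne_zero h16 (pow_ne_zero 2 h1)) h2

/-- the point `(0, 0)` -/
def T (hD : (Wab (-2 * a) (a ^ 2 - 4 * b)).Δ ≠ 0) : (Wab a b).toAffine.Point :=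
  .some 0 0 (nonsing (delta_ne hD) (by ring))

theorem addT {x y : F} (hn : (Wab a b).toAffine.Nonsingular x y) (hx : x ≠ 0) :
    ∃ hn' : (Wab a b).toAffine.Nonsingular (b / x) (-(b * y) / x ^ 2),
      Affine.Point.some x y hn + T hD = .some (b / x) (-(b * y) / x ^ 2) hn' := by
  have he := eqn.1 hn.1
  have hn' : (Wab a b).toAffine.Nonsingular (b / x) (-(b * y) / x ^ 2) := by
    apply nonsing (delta_ne hD)
    have : (-(b * y) / x ^ 2) ^ 2 = b ^ 2 * y ^ 2 / x ^ 4 := by
      field_simp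
    rw [this, he]
    field_simp
    ring
  refine ⟨hn', ?_⟩
  apply add_chord hn _ hn' hx (l := y / x)
  · field_simp
    ring
  · have : (y / x) ^ 2 = y ^ 2 / x ^ 2 := by field_simp
    rw [this, he]
    field_simp
    ring
  · field_simp
    ring

theorem phi_addT {x y : F} (hn : (Wab a b).toAffine.Nonsingular x y) (hx : x ≠ 0) :
    phi hD (.some x y hn + T hD) = phi hD (.some x y hn) := by
  obtain ⟨hn', h⟩ := addT hD hn hx
  have hb := (bne hD).1
  rw [h, phi_some hD hn hx, phi_some hD hn' (div_ne_zero hb hx)]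
  refine some_congr ?_ ?_ _ _
  · field_simp
  · field_simp
    ring

/-- the numerator of the ordinate of the double -/
def qn (a b x : F) : F := x ^ 4 + 2 * a * x ^ 3 + 6 * b * x ^ 2 + 2 * a * b * x + b ^ 2

theorem double (two : (2 : F) ≠ 0) {a b x y : F} (hΔ : (Wab a b).Δ ≠ 0)
    (hn : (Wab a b).toAffine.Nonsingular x y) (hy : y ≠ 0) :
    ∃ hn' : (Wab a b).toAffine.Nonsingular ((x ^ 2 - b) ^ 2 / (4 * y ^ 2))
      ((x ^ 2 - b) * qn a b x / (8 * y ^ 3)),
      Affine.Point.some x y hn + Affine.Point.some x y hn = .some _ _ hn' := by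
  have he := eqn.1 hn.1
  have h4 : (4 : F) ≠ 0 := by
    have : (4 : F) = 2 * 2 := by norm_num
    rw [this]; exact mul_ne_zero two two
  have h8 : (8 : F) ≠ 0 := by
    have : (8 : F) = 4 * 2 := by norm_num
    rw [this]; exact mul_ne_zero h4 two
  have hx3 : (x ^ 2 - b) ^ 2 / (4 * y ^ 2) =
      ((3 * x ^ 2 + 2 * a * x + b) / (2 * y)) ^ 2 - a - 2 * x := by
    rw [div_pow, eq_sub_iff_add_eq, eq_sub_iff_add_eq]
    have e1 : (2 * y) ^ 2 = 4 * y ^ 2 := by ring
    rw [e1, eq_div_iff (mul_ne_zero h4 (pow_ne_zero 2 hy)), add_mul, add_mul,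
      div_mul_cancel₀ _ (mul_ne_zero h4 (pow_ne_zero 2 hy))]
    linear_combination (4 * (a + 2 * x)) * he
  have hy3 : (x ^ 2 - b) * qn a b x / (8 * y ^ 3) =
      -((3 * x ^ 2 + 2 * a * x + b) / (2 * y) * ((x ^ 2 - b) ^ 2 / (4 * y ^ 2) - x) + y) := by
    have e1 : (x ^ 2 - b) ^ 2 / (4 * y ^ 2) - x = ((x ^ 2 - b) ^ 2 - 4 * x * y ^ 2) / (4 * y ^ 2) := by
      rw [sub_div]
      congr 1
      rw [eq_div_iff (mul_ne_zero h4 (pow_ne_zero 2 hy))]
      ring
    have e2 : (3 * x ^ 2 + 2 * a * x + b) / (2 * y) * (((x ^ 2 - b) ^ 2 - 4 * x * y ^ 2) /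
        (4 * y ^ 2)) + y = ((3 * x ^ 2 + 2 * a * x + b) * ((x ^ 2 - b) ^ 2 - 4 * x * y ^ 2)
          + 8 * y ^ 4) / (8 * y ^ 3) := by
      rw [div_mul_div_comm, add_div]
      congr 1
      · congr 1
        ring
      · rw [eq_div_iff (mul_ne_zero h8 (pow_ne_zero 3 hy))]
        ring
    rw [e1, e2, ← neg_div]
    congr 1
    unfold qn
    linear_combination (8 * y ^ 2 + 8 * (x ^ 3 + a * x ^ 2 + b * x) -
      4 * x * (3 * x ^ 2 + 2 * a * x + b)) * he
  have hl : (3 * x ^ 2 + 2 * a * x + b) / (2 * y) * (2 * y) = 3 * x ^ 2 + 2 * a * x + b :=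
    div_mul_cancel₀ _ (mul_ne_zero two hy)
  -- the sum is a point of the curve
  have hy' : y ≠ (Wab a b).toAffine.negY x y := by
    rw [negY]
    intro h0
    have : 2 * y = 0 := by linear_combination h0
    rcases mul_eq_zero.1 this with h1 | h1
    · exact two h1
    · exact hy h1
  obtain ⟨x3, y3, hn3, hsum⟩ : ∃ x3 y3, ∃ hn3 : (Wab a b).toAffine.Nonsingular x3 y3,
      Affine.Point.some x y hn + Affine.Point.some x y hn = .some x3 y3 hn3 :=
    ⟨_, _, _, Affine.Point.add_self_of_Y_ne hy'⟩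
  have hs : (Wab a b).toAffine.slope x x y y = (3 * x ^ 2 + 2 * a * x + b) / (2 * y) := by
    rw [Affine.slope_of_Y_ne rfl hy']
    congr 1
    · simp [Wab]
    · rw [negY]; ring
  have hx3' : x3 = (x ^ 2 - b) ^ 2 / (4 * y ^ 2) := by
    have := Affine.Point.add_self_of_Y_ne (h₁ := hn) hy'
    rw [hsum, Affine.Point.some.injEq] at this
    rw [this.1, hs, hx3]
    simp only [Affine.addX, Wab]
    ring
  have hy3' : y3 = (x ^ 2 - b) * qn a b x / (8 * y ^ 3) := by
    have := Affine.Point.add_self_of_Y_ne (h₁ := hn) hy'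
    rw [hsum, Affine.Point.some.injEq] at this
    rw [this.2, hs, hy3, hx3]
    simp only [Affine.addY, Affine.negAddY, Affine.addX, Affine.negY, Wab]
    ring
  subst hx3'
  subst hy3'
  exact ⟨hn3, hsum⟩

theorem phi_double (two : (2 : F) ≠ 0) {x y : F} (hn : (Wab a b).toAffine.Nonsingular x y)
    (hx : x ≠ 0) : phi hD (.some x y hn + .some x y hn) =
      phi hD (.some x y hn) + phi hD (.some x y hn) := by
  have he := eqn.1 hn.1
  rw [phi_some hD hn hx]
  by_cases hy : y = 0
  · subst hy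
    have h1 : Affine.Point.some x 0 hn + Affine.Point.some x 0 hn = 0 :=
      Affine.Point.add_of_Y_eq rfl (by rw [negY]; ring)
    rw [h1, phi_zero, eq_comm]
    exact Affine.Point.add_of_Y_eq rfl (by rw [negY]; ring)
  · obtain ⟨hn3, h3⟩ := double two (delta_ne hD) hn hy
    rw [h3]
    by_cases hc : x ^ 2 - b = 0
    · rw [phi_T hD hn3 (by rw [hc]; ring), eq_comm]
      refine Affine.Point.add_of_Y_eq rfl ?_
      rw [negY]
      have : b - x ^ 2 = 0 := by linear_combination -hc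
      rw [this]; ring
    · have h4 : (4 : F) ≠ 0 := by
        have : (4 : F) = 2 * 2 := by norm_num
        rw [this]; exact mul_ne_zero two two
      have h8 : (8 : F) ≠ 0 := by
        have : (8 : F) = 4 * 2 := by norm_num
        rw [this]; exact mul_ne_zero h4 two
      have hx3 : (x ^ 2 - b) ^ 2 / (4 * y ^ 2) ≠ 0 :=
        div_ne_zero (pow_ne_zero 2 hc) (mul_ne_zero h4 (pow_ne_zero 2 hy))
      rw [phi_some hD hn3 hx3]
      have hY : y * (b - x ^ 2) / x ^ 2 ≠ 0 := by
        have : b - x ^ 2 ≠ 0 := fun h => hc (by linear_combination -h)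
        exact div_ne_zero (mul_ne_zero hy this) (pow_ne_zero 2 hx)
      obtain ⟨hn4, h5⟩ := double two hD (nonsing hD (img hx he)) hY
      rw [h5]
      obtain ⟨c, hcd⟩ : ∃ c, c = x ^ 2 - b := ⟨_, rfl⟩
      have hX : y ^ 2 / x ^ 2 = (x ^ 2 + a * x + b) / x := by
        rw [he]; field_simp
      have key1 : (y ^ 2 / x ^ 2) ^ 2 - (a ^ 2 - 4 * b) = qn a b x / x ^ 2 := by
        rw [hX]; unfold qn; field_simp; ring
      have hyy : y ^ 4 = x ^ 2 * (x ^ 2 + a * x + b) ^ 2 := by
        have : y ^ 4 = (y ^ 2) ^ 2 := by ring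
        rw [this, he]; ring
      have key2 : qn (-2 * a) (a ^ 2 - 4 * b) (y ^ 2 / x ^ 2) * x ^ 4 = c ^ 4 - 16 * b * y ^ 4 := by
        rw [hX, hyy, hcd]; unfold qn; field_simp; ring
      have hcb : b - x ^ 2 = -c := by rw [hcd]; ring
      rw [← hcd] at hc
      refine some_congr ?_ ?_ _ _
      · rw [key1, ← hcd, hcb]
        field_simp
        ring
      · rw [key1, ← hcd, hcb]
        have key3 : qn (-2 * a) (a ^ 2 - 4 * b) (y ^ 2 / x ^ 2) = (c ^ 4 - 16 * b * y ^ 4) / x ^ 4 := by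
          rw [← key2]; field_simp
        rw [key3]
        field_simp
        ring

theorem T_add_T : T hD + T hD = 0 :=
  Affine.Point.add_of_Y_eq rfl (by rw [negY]; ring)

theorem phi_T' : phi hD (T hD) = 0 := phi_T hD _ rfl

theorem eq_T {x y : F} (hn : (Wab a b).toAffine.Nonsingular x y) (hx : x = 0) :
    Affine.Point.some x y hn = T hD := by
  have he := eqn.1 hn.1
  subst hx
  have hy : y = 0 := by
    have : y ^ 2 = 0 := by rw [he]; ring
    exact pow_eq_zero_iff (two_ne_zero) |>.1 this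
  exact some_congr rfl hy _ _

theorem phi_add_T (P : (Wab a b).toAffine.Point) : phi hD (P + T hD) = phi hD P := by
  rcases P with _ | ⟨x, y, hn⟩
  · change phi hD (0 + T hD) = phi hD 0
    rw [zero_add, phi_T', phi_zero]
  · by_cases hx : x = 0
    · rw [eq_T hD hn hx, T_add_T, phi_zero, phi_T']
    · exact phi_addT hD hn hx

theorem phi_double' (two : (2 : F) ≠ 0) (P : (Wab a b).toAffine.Point) :
    phi hD (P + P) = phi hD P + phi hD P := by
  rcases P with _ | ⟨x, y, hn⟩
  · change phi hD (0 + 0) = phi hD 0 + phi hD 0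
    rw [add_zero, phi_zero, add_zero]
  · by_cases hx : x = 0
    · rw [eq_T hD hn hx, T_add_T, phi_zero, phi_T', add_zero]
    · exact phi_double hD two hn hx

theorem phi_chord (two : (2 : F) ≠ 0) {x1 y1 x2 y2 : F}
    (h1 : (Wab a b).toAffine.Nonsingular x1 y1) (h2 : (Wab a b).toAffine.Nonsingular x2 y2)
    (hx1 : x1 ≠ 0) (hx2 : x2 ≠ 0) (hx : x1 ≠ x2) :
    phi hD (.some x1 y1 h1 + .some x2 y2 h2) =
      phi hD (.some x1 y1 h1) + phi hD (.some x2 y2 h2) := by
  have he1 := eqn.1 h1.1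
  have he2 := eqn.1 h2.1
  have hd : x1 - x2 ≠ 0 := sub_ne_zero.2 hx
  obtain ⟨l, hl⟩ : ∃ l, l * (x1 - x2) = y1 - y2 :=
    ⟨(y1 - y2) / (x1 - x2), div_mul_cancel₀ _ hd⟩
  obtain ⟨v, hv⟩ : ∃ v, v = y1 - l * x1 := ⟨_, rfl⟩
  have hy1 : y1 = l * x1 + v := by rw [hv]; ring
  have hy2 : y2 = l * x2 + v := by rw [hv]; linear_combination hl
  obtain ⟨x3, hx3⟩ : ∃ x3, x3 = l ^ 2 - a - x1 - x2 := ⟨_, rfl⟩
  obtain ⟨y3, hy3⟩ : ∃ y3, y3 = -(l * (x3 - x1) + y1) := ⟨_, rfl⟩
  -- the symmetric functions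
  have s2 : x1 * x2 + (x1 + x2) * x3 = b - 2 * l * v := by
    apply mul_left_cancel₀ hd
    rw [hy1] at he1
    rw [hy2] at he2
    rw [hx3]
    linear_combination he1 - he2
  have s3 : x1 * x2 * x3 = v ^ 2 := by
    rw [hy1] at he1
    have : v ^ 2 = x1 * (x1 ^ 2 + (a - l ^ 2) * x1 + (b - 2 * l * v)) := by
      linear_combination he1
    rw [this, ← s2]
    have : a - l ^ 2 = -(x1 + x2 + x3) := by rw [hx3]; ring
    rw [this]; ring
  have hx12 : ¬ (x1 = x2 ∧ y1 = (Wab a b).toAffine.negY x2 y2) := fun h => hx h.1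
  obtain ⟨X3, Y3, hn3', hsum'⟩ : ∃ X3 Y3, ∃ hn3 : (Wab a b).toAffine.Nonsingular X3 Y3,
      Affine.Point.some x1 y1 h1 + Affine.Point.some x2 y2 h2 = .some X3 Y3 hn3 :=
    ⟨_, _, _, Affine.Point.add_some hx12⟩
  have hs : (Wab a b).toAffine.slope x1 x2 y1 y2 = l := by
    rw [Affine.slope_of_X_ne hx, ← hl]
    exact mul_div_cancel_right₀ _ hd
  have hX3 : X3 = x3 := by
    have := Affine.Point.add_some (h₁ := h1) (h₂ := h2) hx12
    rw [hsum', Affine.Point.some.injEq] at this
    rw [this.1, hs, hx3]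
    simp only [Affine.addX, Wab]
    ring
  have hY3 : Y3 = y3 := by
    have := Affine.Point.add_some (h₁ := h1) (h₂ := h2) hx12
    rw [hsum', Affine.Point.some.injEq] at this
    rw [this.2, hs, hy3, hx3]
    simp only [Affine.addY, Affine.negAddY, Affine.addX, Affine.negY, Wab]
    ring
  subst hX3
  subst hY3
  rw [hsum']
  have hy3' : Y3 = -(l * X3 + v) := by rw [hy3, hy1]; ring
  rw [phi_some hD h1 hx1, phi_some hD h2 hx2]
  by_cases hv0 : v = 0
  · -- the sum is `T`
    have hX0 : X3 = 0 := by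
      rw [hv0] at s3
      have : x1 * x2 ≠ 0 := mul_ne_zero hx1 hx2
      have h0 : x1 * x2 * X3 = 0 := by rw [s3]; ring
      rcases mul_eq_zero.1 h0 with h | h
      · exact absurd h this
      · exact h
    rw [phi_T hD hn3' hX0, eq_comm]
    have hb : x1 * x2 = b := by
      rw [hv0, hX0] at s2
      linear_combination s2
    rw [hv0, add_zero] at hy1 hy2
    refine Affine.Point.add_of_Y_eq ?_ ?_
    · rw [hy1, hy2]; field_simp
    · rw [negY, hy1, hy2, ← hb]
      field_simp
      ring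
  · have hX0 : X3 ≠ 0 := by
      intro h
      rw [h, mul_zero] at s3
      exact hv0 (pow_eq_zero_iff two_ne_zero |>.1 s3.symm)
    rw [phi_some hD hn3' hX0]
    have line : ∀ x y : F, x ≠ 0 → y = l * x + v → y ^ 2 = x ^ 3 + a * x ^ 2 + b * x →
        y * (b - x ^ 2) / x ^ 2 = (b / v - l) * (y ^ 2 / x ^ 2) -
          (v ^ 2 - a * v * l + b * l ^ 2) / v := by
      intro x y hx hy he
      rw [div_eq_iff (pow_ne_zero 2 hx)]
      apply mul_left_cancel₀ hv0
      have e1 : v * (((b / v - l) * (y ^ 2 / x ^ 2) - (v ^ 2 - a * v * l + b * l ^ 2) / v) * x ^ 2)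
          = (b - l * v) * y ^ 2 - (v ^ 2 - a * v * l + b * l ^ 2) * x ^ 2 := by
        field_simp
      rw [e1, hy]
      rw [hy] at he
      linear_combination (l * v) * he
    have L1 := line x1 y1 hx1 hy1 he1
    have L2 := line x2 y2 hx2 hy2 he2
    have he3 := eqn.1 hn3'.1
    have L3 := line X3 (-Y3) hX0 (by rw [hy3']; ring) (by rw [neg_sq]; exact he3)
    by_cases hXX : y1 ^ 2 / x1 ^ 2 = y2 ^ 2 / x2 ^ 2
    · -- `P = Q + T`
      have hu : (y1 / x1 - y2 / x2) * (y1 / x1 + y2 / x2) = 0 := by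
        have : (y1 / x1 - y2 / x2) * (y1 / x1 + y2 / x2) = y1 ^ 2 / x1 ^ 2 - y2 ^ 2 / x2 ^ 2 := by
          field_simp
          ring
        rw [this, hXX, sub_self]
      have hu1 : y1 / x1 - y2 / x2 ≠ 0 := by
        have : y1 / x1 - y2 / x2 = v * (x2 - x1) / (x1 * x2) := by
          rw [hy1, hy2]; field_simp; ring
        rw [this]
        exact div_ne_zero (mul_ne_zero hv0 (fun h => hd (by linear_combination -h)))
          (mul_ne_zero hx1 hx2)
      have hu2 : y1 / x1 + y2 / x2 = 0 := by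
        rcases mul_eq_zero.1 hu with h | h
        · exact absurd h hu1
        · exact h
      have hb : x1 * x2 = b := by
        have e1 : y1 ^ 2 / x1 ^ 2 = x1 + a + b / x1 := by
          rw [he1]; field_simp
        have e2 : y2 ^ 2 / x2 ^ 2 = x2 + a + b / x2 := by
          rw [he2]; field_simp
        rw [e1, e2] at hXX
        have e3 : (x1 - x2) * (x1 * x2) = (x1 - x2) * b := by
          have : (x1 + a + b / x1) * (x1 * x2) = (x2 + a + b / x2) * (x1 * x2) := by rw [hXX]
          have e4 : (x1 + a + b / x1) * (x1 * x2) = (x1 + a) * (x1 * x2) + b * x2 := by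
            field_simp
          have e5 : (x2 + a + b / x2) * (x1 * x2) = (x2 + a) * (x1 * x2) + b * x1 := by
            field_simp
          rw [e4, e5] at this
          linear_combination this
        exact mul_left_cancel₀ hd e3
      obtain ⟨hn', hT⟩ := addT hD h2 hx2
      have hPQ : Affine.Point.some x1 y1 h1 = Affine.Point.some x2 y2 h2 + T hD := by
        rw [hT]
        refine some_congr ?_ ?_ _ _
        · rw [← hb]; field_simp
        · have : y1 = -(y2 / x2) * x1 := by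
            have h0 : y1 / x1 = -(y2 / x2) := by linear_combination hu2
            rw [← h0]; field_simp
          rw [this, ← hb]
          field_simp
      have hfin : phi hD (.some X3 Y3 hn3') = phi hD (.some x1 y1 h1) + phi hD (.some x2 y2 h2) := by
        rw [← hsum', hPQ, phi_add_T]
        have e6 : Affine.Point.some x2 y2 h2 + T hD + Affine.Point.some x2 y2 h2
            = (Affine.Point.some x2 y2 h2 + Affine.Point.some x2 y2 h2) + T hD := by abel
        rw [e6, phi_add_T, phi_double' hD two]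
      rw [phi_some hD hn3' hX0, phi_some hD h1 hx1, phi_some hD h2 hx2] at hfin
      exact hfin
    · rw [eq_comm]
      refine add_chord _ _ _ hXX (l := b / v - l) ?_ ?_ ?_
      · rw [L1, L2]; ring
      · have e1 : y1 ^ 2 / x1 ^ 2 = (l + v / x1) ^ 2 := by rw [hy1]; field_simp
        have e2 : y2 ^ 2 / x2 ^ 2 = (l + v / x2) ^ 2 := by rw [hy2]; field_simp
        have e3 : Y3 ^ 2 / X3 ^ 2 = (l + v / X3) ^ 2 := by rw [hy3', neg_sq]; field_simp
        rw [e1, e2, e3]
        have r1 : v / x1 = x2 * X3 / v := by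
          rw [div_eq_div_iff hx1 hv0]; linear_combination -s3
        have r2 : v / x2 = x1 * X3 / v := by
          rw [div_eq_div_iff hx2 hv0]; linear_combination -s3
        have r3 : v / X3 = x1 * x2 / v := by
          rw [div_eq_div_iff hX0 hv0]; linear_combination -s3
        rw [r1, r2, r3]
        have hb : b = x1 * x2 + (x1 + x2) * X3 + 2 * l * v := by rw [s2]; ring
        have ha : a = l ^ 2 - X3 - x1 - x2 := by rw [hx3]; ring
        rw [hb, ha]
        field_simp
        linear_combination (-2 * (x1 + x2 + X3)) * s3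
      · have : Y3 * (b - X3 ^ 2) / X3 ^ 2 = -((b / v - l) * (Y3 ^ 2 / X3 ^ 2) -
          (v ^ 2 - a * v * l + b * l ^ 2) / v) := by
          rw [neg_sq] at L3
          rw [← L3]; ring
        rw [this, L1]; ring

theorem phi_add (two : (2 : F) ≠ 0) (P Q : (Wab a b).toAffine.Point) :
    phi hD (P + Q) = phi hD P + phi hD Q := by
  rcases P with _ | ⟨x1, y1, h1⟩
  · change phi hD (0 + Q) = phi hD 0 + phi hD Q
    rw [zero_add, phi_zero, zero_add]
  rcases Q with _ | ⟨x2, y2, h2⟩
  · change phi hD (_ + 0) = _ + phi hD 0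
    rw [add_zero, phi_zero, add_zero]
  by_cases hx1 : x1 = 0
  · rw [eq_T hD h1 hx1, phi_T', zero_add, add_comm, phi_add_T]
  by_cases hx2 : x2 = 0
  · rw [eq_T hD h2 hx2, phi_T', add_zero, phi_add_T]
  by_cases hx : x1 = x2
  · have hyy : (y1 - y2) * (y1 + y2) = 0 := by
      have e1 := eqn.1 h1.1
      have e2 := eqn.1 h2.1
      subst hx
      linear_combination e1 - e2
    rcases mul_eq_zero.1 hyy with h | h
    · have hPQ : Affine.Point.some x1 y1 h1 = Affine.Point.some x2 y2 h2 :=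
        some_congr hx (sub_eq_zero.1 h) _ _
      rw [hPQ]
      exact phi_double' hD two _
    · have hPQ : Affine.Point.some x1 y1 h1 = -Affine.Point.some x2 y2 h2 := by
        rw [Affine.Point.neg_some]
        refine some_congr hx ?_ _ _
        rw [negY]
        linear_combination h
      rw [hPQ, neg_add_cancel, phi_neg, neg_add_cancel, phi_zero]
  · exact phi_chord hD two h1 h2 hx1 hx2 hx

/-- the isogeny as a homomorphism -/
noncomputable def phiHom (two : (2 : F) ≠ 0) :
    (Wab a b).toAffine.Point →+ (Wab (-2 * a) (a ^ 2 - 4 * b)).toAffine.Point where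
  toFun := phi hD
  map_zero' := phi_zero hD
  map_add' := phi_add hD two

theorem phiHom_ker (two : (2 : F) ≠ 0) (P : (Wab a b).toAffine.Point)
    (h : phiHom hD two P = 0) : P = 0 ∨ P = T hD := by
  change phi hD P = 0 at h
  rcases P with _ | ⟨x, y, hn⟩
  · exact Or.inl rfl
  · by_cases hx : x = 0
    · exact Or.inr (eq_T hD hn hx)
    · rw [phi_some hD hn hx] at h
      exact absurd h (Affine.Point.some_ne_zero _)

end

end Pool.Agent.Q269.IsoFour
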