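import Pool.Agent.Q269.IsoFour.Rank
import Pool.Agent.W513.FK.Parf
import Pool.Agent.W672.FK.Lowf

/-!
# The curves with a rational cyclic subgroup of order 4 and the curves with full 2-torsion
-/

set_option autoImplicit false

namespace Pool.Agent.Q269.IsoFour

open Finset
open Pool.Agent.W307.RT (Sh Cv HasT)

/-- the discriminant is not zero -/
def Dn (c : ℤ × ℤ) : Prop := 4 * c.1 ^ 3 + 27 * c.2 ^ 2 ≠ 0

/-- minimal -/
def Mn (c : ℤ × ℤ) : Prop := ∀ p : ℕ, p.Prime → ¬ ((p : ℤ) ^ 4 ∣ c.1 ∧ (p : ℤ) ^ 6 ∣ c.2)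

/-- the height is at most `H` -/
def Hl (H : ℕ) (c : ℤ × ℤ) : Prop := 4 * |c.1| ^ 3 ≤ H ∧ 27 * c.2 ^ 2 ≤ H

/-- the relation with the parameters -/
def Pr (c : ℤ × ℤ) (e s : ℤ) : Prop := c.1 = s ^ 2 - 3 * e ^ 2 ∧ c.2 = 2 * e ^ 3 - s ^ 2 * e

/-- the Mordell-Weil rank -/
noncomputable def rk (c : ℤ × ℤ) : ℕ := Module.finrank ℤ (Sh c.1 c.2).toAffine.Point

theorem exists_min : ∀ (n : ℕ) (c : ℤ × ℤ), (4 * c.1 ^ 3 + 27 * c.2 ^ 2).natAbs ≤ n → Dn c →
    ∃ (u : ℤ) (c' : ℤ × ℤ), 0 < u ∧ c.1 = u ^ 4 * c'.1 ∧ c.2 = u ^ 6 * c'.2 ∧ Dn c' ∧ Mn c' := by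
  intro n
  induction n with
  | zero =>
    intro c h hD
    exfalso
    apply hD
    have : (4 * c.1 ^ 3 + 27 * c.2 ^ 2).natAbs = 0 := by omega
    exact Int.natAbs_eq_zero.1 this
  | succ n ih =>
    intro c h hD
    by_cases hM : Mn c
    · exact ⟨1, c, one_pos, by ring, by ring, hD, hM⟩
    · unfold Mn at hM
      push Not at hM
      obtain ⟨p, hp, ⟨a, ha⟩, ⟨b, hb⟩⟩ := hM
      have hp0 : (p : ℤ) ≠ 0 := by exact_mod_cast hp.ne_zero
      have hdisc : 4 * c.1 ^ 3 + 27 * c.2 ^ 2 = (p : ℤ) ^ 12 * (4 * a ^ 3 + 27 * b ^ 2) := by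
        rw [ha, hb]; ring
      have hD' : Dn (a, b) := by
        intro h0
        apply hD
        rw [hdisc]
        change 4 * a ^ 3 + 27 * b ^ 2 = 0 at h0
        rw [h0, mul_zero]
      have hlt : (4 * a ^ 3 + 27 * b ^ 2).natAbs ≤ n := by
        have h1 : (4 * c.1 ^ 3 + 27 * c.2 ^ 2).natAbs = p ^ 12 * (4 * a ^ 3 + 27 * b ^ 2).natAbs := by
          rw [hdisc, Int.natAbs_mul, Int.natAbs_pow, Int.natAbs_natCast]
        have h2 : 2 ≤ p ^ 12 := by
          calc 2 ≤ 2 ^ 12 := by norm_num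
            _ ≤ p ^ 12 := Nat.pow_le_pow_left hp.two_le 12
        have h3 : 1 ≤ (4 * a ^ 3 + 27 * b ^ 2).natAbs := Int.natAbs_pos.2 hD'
        have h4 : 2 * (4 * a ^ 3 + 27 * b ^ 2).natAbs ≤ p ^ 12 * (4 * a ^ 3 + 27 * b ^ 2).natAbs :=
          Nat.mul_le_mul_right _ h2
        omega
      obtain ⟨u, c', hu, h1, h2, h3, h4⟩ := ih (a, b) hlt hD'
      change a = u ^ 4 * c'.1 at h1
      change b = u ^ 6 * c'.2 at h2
      refine ⟨p * u, c', mul_pos (by exact_mod_cast hp.pos) hu, ?_, ?_, h3, h4⟩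
      · rw [ha, h1]; ring
      · rw [hb, h2]; ring

/-- uniqueness of minimal models -/
theorem min_unique {c d : ℤ × ℤ} (hc : Mn c) (hd : Mn d) {u v : ℤ} (hu : 0 < u) (hv : 0 < v)
    (h1 : c.1 * u ^ 4 = d.1 * v ^ 4) (h2 : c.2 * u ^ 6 = d.2 * v ^ 6) : c = d := by
  obtain ⟨g, u', v', hg, hco, hu', hv'⟩ : ∃ g u' v' : ℤ, 0 < g ∧ IsCoprime u' v' ∧
      u = g * u' ∧ v = g * v' := by
    have hg : 0 < Int.gcd u v := Int.gcd_pos_of_ne_zero_left _ hu.ne'
    obtain ⟨a, b, hab, ha, hb⟩ := Int.exists_gcd_one hg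
    exact ⟨(Int.gcd u v : ℤ), a, b, by exact_mod_cast hg, Int.isCoprime_iff_gcd_eq_one.2 hab,
      by rw [mul_comm]; exact ha, by rw [mul_comm]; exact hb⟩
  have hu'0 : 0 < u' := by
    rw [hu'] at hu; exact (pos_iff_pos_of_mul_pos hu).1 hg
  have hv'0 : 0 < v' := by
    rw [hv'] at hv; exact (pos_iff_pos_of_mul_pos hv).1 hg
  have e1 : c.1 * u' ^ 4 = d.1 * v' ^ 4 := by
    apply mul_left_cancel₀ (pow_ne_zero 4 hg.ne')
    rw [hu', hv'] at h1
    linear_combination h1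
  have e2 : c.2 * u' ^ 6 = d.2 * v' ^ 6 := by
    apply mul_left_cancel₀ (pow_ne_zero 6 hg.ne')
    rw [hu', hv'] at h2
    linear_combination h2
  have key : ∀ (c d : ℤ × ℤ) (u v : ℤ), Mn c → 0 < v → IsCoprime u v →
      c.1 * u ^ 4 = d.1 * v ^ 4 → c.2 * u ^ 6 = d.2 * v ^ 6 → v = 1 := by
    intro c d u v hc hv hco h1 h2
    by_contra hne
    have hne' : v.natAbs ≠ 1 := by
      intro h; apply hne; omega
    obtain ⟨p, hp, hpv⟩ := Nat.exists_prime_and_dvd hne'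
    have hpv' : (p : ℤ) ∣ v := Int.natCast_dvd.2 hpv
    apply hc p hp
    constructor
    · have : v ^ 4 ∣ c.1 * u ^ 4 := Dvd.intro_left _ h1.symm
      have h3 : v ^ 4 ∣ c.1 := (hco.symm.pow (m := 4) (n := 4)).dvd_of_dvd_mul_right this
      exact (pow_dvd_pow_of_dvd hpv' 4).trans h3
    · have : v ^ 6 ∣ c.2 * u ^ 6 := Dvd.intro_left _ h2.symm
      have h3 : v ^ 6 ∣ c.2 := (hco.symm.pow (m := 6) (n := 6)).dvd_of_dvd_mul_right this
      exact (pow_dvd_pow_of_dvd hpv' 6).trans h3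
  have hv1 := key c d u' v' hc hv'0 hco e1 e2
  have hu1 := key d c v' u' hd hu'0 hco.symm e1.symm e2.symm
  rw [hv1, hu1] at e1 e2
  exact Prod.ext (by linarith) (by linarith)

/-- a root of a scaled cubic -/
theorem scaled_root {A B A' B' u e : ℤ} (hu : 0 < u) (hA : A = u ^ 4 * A') (hB : B = u ^ 6 * B')
    (h : e ^ 3 + A * e + B = 0) : ∃ e' : ℤ, e = u ^ 2 * e' ∧ e' ^ 3 + A' * e' + B' = 0 := by
  have huQ : (u : ℚ) ≠ 0 := by exact_mod_cast hu.ne'
  have h1 : ((e : ℚ) / u ^ 2) ^ 3 + A' * ((e : ℚ) / u ^ 2) + B' = 0 := by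
    have h2 : (e : ℚ) ^ 3 + (u ^ 4 * A') * e + u ^ 6 * B' = 0 := by
      rw [hA, hB] at h
      exact_mod_cast h
    field_simp
    linear_combination h2
  obtain ⟨i, hi⟩ := Pool.Agent.W135.RT.int_root h1
  refine ⟨i, ?_, ?_⟩
  · have : (e : ℚ) = u ^ 2 * i := by rw [← hi]; field_simp
    exact_mod_cast this
  · rw [hi] at h1
    exact_mod_cast h1

/-- an injection of the set of the integral roots of a cubic to three elements -/
theorem exists_idx (A B : ℤ) : ∃ f : ℤ → Fin 3, ∀ x y : ℤ, x ^ 3 + A * x + B = 0 →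
    y ^ 3 + A * y + B = 0 → f x = f y → x = y := by
  classical
  by_cases h1 : ∃ x : ℤ, x ^ 3 + A * x + B = 0
  · obtain ⟨x1, hx1⟩ := h1
    by_cases h2 : ∃ x : ℤ, x ^ 3 + A * x + B = 0 ∧ x ≠ x1
    · obtain ⟨x2, hx2, h21⟩ := h2
      -- every other root is the third one
      have h3 : ∀ x : ℤ, x ^ 3 + A * x + B = 0 → x ≠ x1 → x ≠ x2 → x = -x1 - x2 := by
        intro x hx hx1' hx2'
        have e1 : (x - x1) * (x ^ 2 + x * x1 + x1 ^ 2 + A) = 0 := by linear_combination hx - hx1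
        have e2 : (x2 - x1) * (x2 ^ 2 + x2 * x1 + x1 ^ 2 + A) = 0 := by linear_combination hx2 - hx1
        have e3 := (mul_eq_zero.1 e1).resolve_left (sub_ne_zero.2 hx1')
        have e4 := (mul_eq_zero.1 e2).resolve_left (sub_ne_zero.2 h21)
        have e5 : (x - x2) * (x + x2 + x1) = 0 := by linear_combination e3 - e4
        have e6 := (mul_eq_zero.1 e5).resolve_left (sub_ne_zero.2 hx2')
        linarith
      refine ⟨fun x => if x = x1 then 0 else if x = x2 then 1 else 2, ?_⟩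
      intro x y hx hy hxy
      change (if x = x1 then (0 : Fin 3) else if x = x2 then 1 else 2) =
        (if y = x1 then (0 : Fin 3) else if y = x2 then 1 else 2) at hxy
      by_cases a1 : x = x1
      · by_cases b1 : y = x1
        · rw [a1, b1]
        · rw [if_pos a1, if_neg b1] at hxy
          by_cases b2 : y = x2
          · rw [if_pos b2] at hxy
            exact absurd hxy (by decide)
          · rw [if_neg b2] at hxy
            exact absurd hxy (by decide)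
      · rw [if_neg a1] at hxy
        by_cases b1 : y = x1
        · rw [if_pos b1] at hxy
          by_cases a2 : x = x2
          · rw [if_pos a2] at hxy
            exact absurd hxy (by decide)
          · rw [if_neg a2] at hxy
            exact absurd hxy (by decide)
        · rw [if_neg b1] at hxy
          by_cases a2 : x = x2
          · by_cases b2 : y = x2
            · rw [a2, b2]
            · rw [if_pos a2, if_neg b2] at hxy
              exact absurd hxy (by decide)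
          · by_cases b2 : y = x2
            · rw [if_neg a2, if_pos b2] at hxy
              exact absurd hxy (by decide)
            · rw [h3 x hx a1 a2, h3 y hy b1 b2]
    · push Not at h2
      refine ⟨fun _ => 0, fun x y hx hy _ => ?_⟩
      rw [h2 x hx, h2 y hy]
  · refine ⟨fun _ => 0, fun x y hx hy _ => ?_⟩
    exact absurd ⟨x, hx⟩ h1

/-- the index of a root -/
noncomputable def idx (c : ℤ × ℤ) : ℤ → Fin 3 := (exists_idx c.1 c.2).choose

theorem idx_inj (c : ℤ × ℤ) {x y : ℤ} (hx : x ^ 3 + c.1 * x + c.2 = 0)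
    (hy : y ^ 3 + c.1 * y + c.2 = 0) (h : idx c x = idx c y) : x = y :=
  (exists_idx c.1 c.2).choose_spec x y hx hy h

/-- full 2-torsion from the roots -/
theorem full_of_roots {A B r1 r2 r3 : ℤ} (hs : r1 + r2 + r3 = 0) (h12 : r1 ≠ r2) (h13 : r1 ≠ r3)
    (h23 : r2 ≠ r3) (hA : A = r1 * r2 + r1 * r3 + r2 * r3) (hB : B = -(r1 * r2 * r3)) :
    HasT 2 (Sh A B) := by
  have h3 : r3 = -r1 - r2 := by linarith
  subst h3
  apply Pool.Agent.W672.FK.hasT2 (a := ((-r1 - r2 : ℤ) - r1 : ℚ) / 3) (b := (r2 - r1 : ℚ) / 3)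
  · rw [hA]; push_cast; ring
  · rw [hB]; push_cast; ring
  · have : (((-r1 - r2 : ℤ) : ℚ) - r1) ≠ 0 := by
      intro h
      apply h13
      have h' : ((-r1 - r2 : ℤ) : ℚ) = (r1 : ℚ) := by linarith
      have : (-r1 - r2 : ℤ) = r1 := by exact_mod_cast h'
      exact this.symm
    exact div_ne_zero this (by norm_num)
  · have : ((r2 : ℚ) - r1) ≠ 0 := by
      intro h
      apply h12
      have h' : (r2 : ℚ) = r1 := by linarith
      exact (by exact_mod_cast h' : r2 = r1).symm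
    exact div_ne_zero this (by norm_num)
  · intro h
    apply h23
    have h' : (r2 : ℚ) = ((-r1 - r2 : ℤ) : ℚ) := by push_cast at h ⊢; linarith
    exact_mod_cast h'

/-- the three roots -/
theorem roots_of_full {c : ℤ × ℤ} (hD : Dn c) (hT : HasT 2 (Sh c.1 c.2)) :
    ∃ r1 r2 r3 : ℤ, r1 + r2 + r3 = 0 ∧ r1 ≠ r2 ∧ r1 ≠ r3 ∧ r2 ≠ r3 ∧
      c.1 = r1 * r2 + r1 * r3 + r2 * r3 ∧ c.2 = -(r1 * r2 * r3) := by
  obtain ⟨f, hf1, -, ha, hb, hab, e1, e2, e3, hx, h2, h3⟩ := Pool.Agent.W513.FK.exRl c hD hT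
  have hf : (0 : ℤ) < f.1 := by exact_mod_cast hf1
  have x0 := hx 0
  have x1 := hx 1
  have x2 := hx (-1)
  have s0 : e1 + e2 + e3 = 0 := by
    have : 2 * (e1 + e2 + e3) = 0 := by linear_combination x1 + x2 - 2 * x0
    linarith
  refine ⟨e1, e2, e3, s0, ?_, ?_, ?_, ?_, ?_⟩
  · intro h
    rw [h, sub_self] at h2
    exact mul_ne_zero hf.ne' ha h2.symm
  · intro h
    rw [h, sub_self] at h3
    exact mul_ne_zero hf.ne' hb h3.symm
  · intro h
    rw [h] at h2
    apply hab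
    exact mul_left_cancel₀ hf.ne' (h2.symm.trans h3)
  · linarith
  · linarith

end Pool.Agent.Q269.IsoFour
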