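import Pool.Agent.Q269.IsoFour.Iso
import Pool.Agent.Q286.EQ.MW
import Pool.Agent.Y700.VC
import Pool.Agent.W307.RT.Defs

/-!
# Ranks and the 2-isogeny
-/

set_option autoImplicit false

namespace Pool.Agent.Q269.IsoFour

open WeierstrassCurve Module
open Pool.Agent.W307.RT (Sh)
open Pool.Agent.Y700 (VR)

theorem rank_hom {M N : Type} [AddCommGroup M] [AddCommGroup N] (hM : AddGroup.FG M)
    (hN : AddGroup.FG N) (f : M →+ N) (hf : ∀ x, f x = 0 → (2 : ℤ) • x = 0) :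
    finrank ℤ M ≤ finrank ℤ N := by
  have i1 : Module.Finite ℤ M := Module.Finite.iff_addGroup_fg.2 hM
  have i2 : Module.Finite ℤ N := Module.Finite.iff_addGroup_fg.2 hN
  obtain ⟨g, hg⟩ : ∃ g : M →ₗ[ℤ] N, g = f.toIntLinearMap := ⟨_, rfl⟩
  have h1 := Submodule.finrank_quotient_add_finrank (LinearMap.ker g)
  have h2 : finrank ℤ (LinearMap.ker g) = 0 := by
    rw [Module.finrank_eq_zero_iff_isTorsion]
    rintro ⟨x, hx⟩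
    refine ⟨⟨2, mem_nonZeroDivisors_of_ne_zero (by norm_num)⟩, ?_⟩
    apply Subtype.ext
    have h3 : g x = 0 := hx
    rw [hg] at h3
    exact hf x h3
  have h3 : finrank ℤ (M ⧸ LinearMap.ker g) = finrank ℤ (LinearMap.range g) :=
    (g.quotKerEquivRange).finrank_eq
  have h4 : finrank ℤ (LinearMap.range g) ≤ finrank ℤ N := Submodule.finrank_le _
  omega

theorem sh_disc (A B : ℤ) : (Sh A B).Δ = -16 * (4 * (A : ℚ) ^ 3 + 27 * (B : ℚ) ^ 2) := by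
  simp only [Sh, WeierstrassCurve.Δ, WeierstrassCurve.b₂, WeierstrassCurve.b₄,
    WeierstrassCurve.b₆, WeierstrassCurve.b₈]
  ring

theorem sh_ne {A B : ℤ} (h : 4 * A ^ 3 + 27 * B ^ 2 ≠ 0) : (Sh A B).Δ ≠ 0 := by
  rw [sh_disc]
  have : (4 * (A : ℚ) ^ 3 + 27 * (B : ℚ) ^ 2) ≠ 0 := by exact_mod_cast h
  exact mul_ne_zero (by norm_num) this

theorem rank_vr {W W' : WeierstrassCurve ℚ} {u r s t : ℚ} (h : VR W W' u r s t) (hD : W'.Δ ≠ 0) :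
    finrank ℤ W'.toAffine.Point = finrank ℤ W.toAffine.Point :=
  (h.equiv hD).toIntLinearEquiv.finrank_eq

/-- scaling -/
theorem rank_scale {A B A' B' : ℤ} {u : ℤ} (hu : u ≠ 0) (hA : A = u ^ 4 * A') (hB : B = u ^ 6 * B')
    (hD : 4 * A' ^ 3 + 27 * B' ^ 2 ≠ 0) :
    finrank ℤ (Sh A B).toAffine.Point = finrank ℤ (Sh A' B').toAffine.Point := by
  have hv : VR (Sh A B) (Sh A' B') (u : ℚ) 0 0 0 := by
    refine ⟨by exact_mod_cast hu, ?_, ?_, ?_, ?_, ?_⟩ <;> simp [Sh, hA, hB]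
  exact (rank_vr hv (sh_ne hD)).symm

theorem rank_le {A B e s : ℤ} (hA : A = s ^ 2 - 3 * e ^ 2) (hB : B = 2 * e ^ 3 - s ^ 2 * e)
    (hD : 4 * A ^ 3 + 27 * B ^ 2 ≠ 0) :
    4 * (-3 * e ^ 2 - 4 * s ^ 2) ^ 3 + 27 * (2 * e ^ 3 - 8 * e * s ^ 2) ^ 2 ≠ 0 ∧
    finrank ℤ (Sh A B).toAffine.Point ≤
      finrank ℤ (Sh (-3 * e ^ 2 - 4 * s ^ 2) (2 * e ^ 3 - 8 * e * s ^ 2)).toAffine.Point := by
  have hdisc : 4 * A ^ 3 + 27 * B ^ 2 = s ^ 4 * (4 * s ^ 2 - 9 * e ^ 2) := by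
    rw [hA, hB]; ring
  have hdisc' : 4 * (-3 * e ^ 2 - 4 * s ^ 2) ^ 3 + 27 * (2 * e ^ 3 - 8 * e * s ^ 2) ^ 2
      = -(16 * s ^ 2 * (4 * s ^ 2 - 9 * e ^ 2) ^ 2) := by ring
  rw [hdisc] at hD
  have hs : s ≠ 0 := by
    rintro rfl; apply hD; ring
  have h9 : 4 * s ^ 2 - 9 * e ^ 2 ≠ 0 := by
    intro h; apply hD; rw [h]; ring
  have hD' : 4 * (-3 * e ^ 2 - 4 * s ^ 2) ^ 3 + 27 * (2 * e ^ 3 - 8 * e * s ^ 2) ^ 2 ≠ 0 := by
    rw [hdisc']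
    exact neg_ne_zero.2 (mul_ne_zero (mul_ne_zero (by norm_num) (pow_ne_zero 2 hs))
      (pow_ne_zero 2 h9))
  refine ⟨hD', ?_⟩
  have h2 : (2 : ℚ) ≠ 0 := by norm_num
  have hDQ : (Wab (-2 * (3 * (e : ℚ))) ((3 * (e : ℚ)) ^ 2 - 4 * (s : ℚ) ^ 2)).Δ ≠ 0 := by
    rw [delta]
    have e1 : (3 * (e : ℚ)) ^ 2 - 4 * (s : ℚ) ^ 2 ≠ 0 := by
      intro h
      apply h9
      have : ((4 * s ^ 2 - 9 * e ^ 2 : ℤ) : ℚ) = 0 := by push_cast; linear_combination -h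
      exact_mod_cast this
    have e2 : (-2 * (3 * (e : ℚ))) ^ 2 - 4 * ((3 * (e : ℚ)) ^ 2 - 4 * (s : ℚ) ^ 2)
        = 16 * (s : ℚ) ^ 2 := by ring
    rw [e2]
    have hsQ : (s : ℚ) ≠ 0 := by exact_mod_cast hs
    exact mul_ne_zero (mul_ne_zero (by norm_num) (pow_ne_zero 2 e1))
      (mul_ne_zero (by norm_num) (pow_ne_zero 2 hsQ))
  have hv1 : VR (Sh A B) (Wab (3 * (e : ℚ)) ((s : ℚ) ^ 2)) 1 (e : ℚ) 0 0 := by
    refine ⟨one_ne_zero, ?_, ?_, ?_, ?_, ?_⟩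
    · simp [Sh, Wab]
    · simp [Sh, Wab]
    · simp [Sh, Wab]
    · simp only [Sh, Wab, hA]; push_cast; ring
    · simp only [Sh, Wab, hA, hB]; push_cast; ring
  have hv2 : VR (Sh (-3 * e ^ 2 - 4 * s ^ 2) (2 * e ^ 3 - 8 * e * s ^ 2))
      (Wab (-2 * (3 * (e : ℚ))) ((3 * (e : ℚ)) ^ 2 - 4 * (s : ℚ) ^ 2)) 1 (-2 * (e : ℚ)) 0 0 := by
    refine ⟨one_ne_zero, ?_, ?_, ?_, ?_, ?_⟩
    · simp [Sh, Wab]
    · simp only [Sh, Wab]; push_cast; ring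
    · simp [Sh, Wab]
    · simp only [Sh, Wab]; push_cast; ring
    · simp only [Sh, Wab]; push_cast; ring
  have hD1 := delta_ne hDQ
  rw [← rank_vr hv1 hD1, ← rank_vr hv2 hDQ]
  apply rank_hom (Pool.Agent.Q286.EQ.mordell_weil ℚ _ hD1)
    (Pool.Agent.Q286.EQ.mordell_weil ℚ _ hDQ) (phiHom hDQ h2)
  intro P hP
  rcases phiHom_ker hDQ h2 P hP with h | h
  · rw [h, smul_zero]
  · rw [h, two_smul]
    exact T_add_T hDQ

end Pool.Agent.Q269.IsoFour
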